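import Mathlib

set_option autoImplicit false

open Polynomial Finset

namespace Pool.Agent.H486N

/-! ### bit masks as polynomials over the field with two elements -/

/-- the polynomial over `ZMod 2` with a given bit mask -/
noncomputable def toP : ℕ → Polynomial (ZMod 2) :=
  Nat.binaryRec 0 (fun b _ p => C (if b then 1 else 0) + X * p)

theorem toP_zero : toP 0 = 0 := by
  unfold toP
  rw [Nat.binaryRec_zero]

theorem toP_bit (b : Bool) (n : ℕ) : toP (Nat.bit b n) = C (if b then 1 else 0) + X * toP n := by
  unfold toP
  rw [Nat.binaryRec_eq]
  left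
  simp

theorem toP_xor (a b : ℕ) : toP (a ^^^ b) = toP a + toP b := by
  induction a using Nat.binaryRec generalizing b with
  | zero => simp [toP_zero]
  | bit x m ih =>
    induction b using Nat.binaryRec with
    | zero => simp [toP_zero]
    | bit y n _ =>
      rw [Nat.xor_bit, toP_bit, toP_bit, toP_bit, ih]
      have h : (C (if (x ^^ y) then 1 else 0) : Polynomial (ZMod 2)) =
          C (if x then 1 else 0) + C (if y then 1 else 0) := by
        cases x <;> cases y
        · simp
        · simp
        · simp
        · rw [← C_add]
          exact congrArg C (by decide)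
      rw [h]
      ring

theorem toP_two_mul (a : ℕ) : toP (2 * a) = X * toP a := by
  have := toP_bit false a
  rw [Nat.bit_false] at this
  simpa using this

theorem toP_one : toP 1 = 1 := by
  have := toP_bit true 0
  rw [toP_zero] at this
  simpa using this

theorem toP_two_pow (n : ℕ) : toP (2 ^ n) = X ^ n := by
  induction n with
  | zero => rw [pow_zero, pow_zero, toP_one]
  | succ n ih => rw [pow_succ', toP_two_mul, ih, pow_succ']

/-- carryless multiplication with fuel -/
def clmul : ℕ → ℕ → ℕ → ℕ
  | 0, _, _ => 0
  | n + 1, a, b => ((a % 2) * b) ^^^ (2 * clmul n (a / 2) b)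

theorem toP_clmul (n a b : ℕ) (ha : a < 2 ^ n) : toP (clmul n a b) = toP a * toP b := by
  induction n generalizing a with
  | zero =>
    have : a = 0 := by simpa using ha
    subst this
    simp [clmul, toP_zero]
  | succ n ih =>
    rw [clmul, toP_xor, toP_two_mul, ih (a / 2) (by rw [pow_succ] at ha; omega)]
    have h2 : a % 2 = 0 ∨ a % 2 = 1 := Nat.mod_two_eq_zero_or_one a
    rcases h2 with h | h
    · have h3 : toP a = X * toP (a / 2) := by
        conv_lhs => rw [show a = 2 * (a / 2) by omega]
        exact toP_two_mul _
      rw [h, zero_mul, toP_zero, h3]; ring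
    · have h3 : toP a = 1 + X * toP (a / 2) := by
        have h4 := toP_bit true (a / 2)
        have h5 : Nat.bit true (a / 2) = a := by
          rw [Nat.bit_true]
          show 2 * (a / 2) + 1 = a
          omega
        rw [h5] at h4
        rw [h4]; simp
      rw [h, one_mul, h3]; ring

/-- the masks of the four octics -/
def ym : List ℕ := [290, 265, 269, 425]

/-- carryless power -/
def clpow (a : ℕ) : ℕ → ℕ
  | 0 => 1
  | n + 1 => clmul 66 (clpow a n) a

/-- squares of the masks -/
def sm : List ℕ := [clmul 66 290 290, clmul 66 265 265, clmul 66 269 269, clmul 66 425 425]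

/-- the row of a quartic monomial -/
def rowA (a b c d : ℕ) : ℕ :=
  clmul 66 (clmul 66 (clmul 66 (clpow (clmul 66 290 290) a) (clpow (clmul 66 265 265) b))
    (clpow (clmul 66 269 269) c)) (clpow (clmul 66 425 425) d)

/-- the four products `(∏ y) (∏_{l ≠ j} y_l)` -/
def gB : ℕ → ℕ
  | 0 => clmul 66 (clmul 66 (clmul 66 (clmul 66 (clmul 66 (clmul 66 290 265) 269) 425) 265) 269) 425
  | 1 => clmul 66 (clmul 66 (clmul 66 (clmul 66 (clmul 66 (clmul 66 290 265) 269) 425) 290) 269) 425
  | 2 => clmul 66 (clmul 66 (clmul 66 (clmul 66 (clmul 66 (clmul 66 290 265) 269) 425) 290) 265) 425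
  | _ => clmul 66 (clmul 66 (clmul 66 (clmul 66 (clmul 66 (clmul 66 290 265) 269) 425) 290) 265) 269

/-- the exponents of the quartic monomials -/
def alphaL : List (ℕ × ℕ × ℕ × ℕ) := [
  (0, 0, 0, 4), (0, 0, 1, 3), (0, 0, 2, 2), (0, 0, 3, 1), (0, 0, 4, 0), (0, 1, 0, 3),
  (0, 1, 1, 2), (0, 1, 2, 1), (0, 1, 3, 0), (0, 2, 0, 2), (0, 2, 1, 1), (0, 2, 2, 0),
  (0, 3, 0, 1), (0, 3, 1, 0), (0, 4, 0, 0), (1, 0, 0, 3), (1, 0, 1, 2), (1, 0, 2, 1),
  (1, 0, 3, 0), (1, 1, 0, 2), (1, 1, 1, 1), (1, 1, 2, 0), (1, 2, 0, 1), (1, 2, 1, 0),
  (1, 3, 0, 0), (2, 0, 0, 2), (2, 0, 1, 1), (2, 0, 2, 0), (2, 1, 0, 1), (2, 1, 1, 0),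
  (2, 2, 0, 0), (3, 0, 0, 1), (3, 0, 1, 0), (3, 1, 0, 0), (4, 0, 0, 0)]

/-- indices of the remaining rows -/
def jkL : List (ℕ × ℕ) := [
  (0, 0), (0, 1), (0, 2), (0, 3), (0, 4), (0, 5), (0, 6), (0, 7), (0, 8), (1, 0), (1, 1), (1, 2),
  (1, 3), (1, 4), (1, 5), (1, 6), (1, 7), (1, 8), (2, 0), (2, 1), (2, 2), (2, 3), (2, 4), (2, 5),
  (2, 6), (2, 7), (2, 8), (3, 0), (3, 1), (3, 2), (3, 3), (3, 4), (3, 5), (3, 6), (3, 7), (3, 8)]

/-- all rows, as literals -/
def rowLit : List ℕ := [
  18518802767275884545, 24234174159669952529, 19604169250974990593, 23348073426899439889,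
  18446744073726394369, 24230513971313067009, 19599951800578409489, 23351517033697461505,
  18451253244199245073, 19604170282036625409, 23348072585168683025, 18446745173239005441,
  23351516192174064641, 18451252144419963921, 18446744073726328833, 24595359404298425604,
  19888269858554512708, 23154413408246321412, 18758710724401643844, 19892418595100312836,
  23148802594977092932, 18754137034864017668, 23154414227695162628, 18758711807467062596,
  18754138118336824580, 19599965818023116816, 23351533865694986512, 18451266434023624720,
  23348090932933509136, 18446767164528607504, 18451265334243557392, 23148783839992696896,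
  18754114817282561088, 18758690177273581632, 18446745173221179648, 103115865414103938,
  206231730828207876, 412463461656415752, 824926923312831504, 1649853846625663008,
  3299707693251326016, 6599415386502652032, 13198830773005304064, 26397661546010608128,
  92985169868841572, 185970339737683144, 371940679475366288, 743881358950732576,
  1487762717901465152, 2975525435802930304, 5951050871605860608, 11902101743211721216,
  23804203486423442432, 94374609611366452, 188749219222732904, 377498438445465808,
  754996876890931616, 1509993753781863232, 3019987507563726464, 6039975015127452928,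
  12079950030254905856, 24159900060509811712, 121518310544464100, 243036621088928200,
  486073242177856400, 972146484355712800, 1944292968711425600, 3888585937422851200,
  7777171874845702400, 15554343749691404800, 31108687499382809600]

/-- the certificate -/
def certL : List ℕ := [
  2725638462, 499650562111080349428, 10736183779, 117259276760273633174, 9795162553,
  462313416445028015165, 12696652298, 265040429431920182969, 10913265560, 1053365688055894787579,
  817230048, 895489769938044928764, 2895739726, 415928295420231289309, 1350254763,
  891292103789585254081, 16400, 397165594249496061909, 2115250479, 1113654082689392419385,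
  11751342007, 693980483026632466013, 2203220938, 753535221862499160994, 2410790877,
  549325181984007743870, 2203190850, 541696729489011644685, 3532471137, 577966139588925739842,
  2214709242, 430093858012799670358, 9668605394, 1019200983610625277625, 2126911560,
  175317535526760835233, 3532484965, 701265796838314612976, 3736901265, 715965046218112247644,
  907296815, 696601943392293067656, 8986083174, 771091729991516808916, 2314497917,
  476562245197814951277, 11675256797, 245987955672303295024, 11330124043, 979137607899555860085,
  11255061473, 10542438342011030717, 3439607525, 37634530745041651604, 329328226,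
  148196542744932645889, 907280430, 590525354108435386758, 3343186183, 1158438329764897591111,
  3585674702, 877638823520995286494, 2306720458, 14829353433005040426, 767823587]

/-- xor of the rows selected by a mask -/
def comb : List ℕ → ℕ → ℕ
  | [], _ => 0
  | r :: L, s => ((s % 2) * r) ^^^ comb L (s / 2)

theorem rows_ok : alphaL.map (fun t => rowA t.1 t.2.1 t.2.2.1 t.2.2.2) ++
    jkL.map (fun t => 2 ^ t.2 * gB t.1) = rowLit := by decide +kernel

theorem cert_ok : certL.map (comb rowLit) = (List.range 65).map (fun i => 2 ^ i) := by
  decide +kernel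

end Pool.Agent.H486N
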