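import Pool.Agent.H486_Neuro.Net

set_option autoImplicit false

open MvPolynomial Finset

namespace Pool.Agent.H486N

/-- exponent vectors of the quartic monomials in four variables -/
abbrev A4 : Type := {α : Fin 4 → Fin 5 // ∑ j, (α j : ℕ) = 4}

theorem card_A4 : Fintype.card A4 = 35 := by decide +kernel

section generic
variable {R S : Type} [CommRing R] [CommRing S]

/-- a quaternary quartic form -/
noncomputable def qf (q : A4 → R) (z : Fin 4 → Polynomial R) : Polynomial R :=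
  ∑ α : A4, Polynomial.C (q α) * ∏ j, z j ^ (α.1 j : ℕ)

theorem map_qf (f : R →+* S) (q : A4 → R) (z : Fin 4 → Polynomial R) :
    (qf q z).map f = qf (fun α => f (q α)) (fun j => (z j).map f) := by
  simp only [qf, Polynomial.map_sum, Polynomial.map_mul, Polynomial.map_C, Polynomial.map_prod,
    Polynomial.map_pow]

/-- a polynomial with given coefficients -/
noncomputable def pl {n : ℕ} (y : Fin n → R) : Polynomial R :=
  ∑ k, Polynomial.C (y k) * Polynomial.X ^ (k : ℕ)

theorem map_pl {n : ℕ} (f : R →+* S) (y : Fin n → R) :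
    (pl y).map f = pl (fun k => f (y k)) := by
  simp only [pl, Polynomial.map_sum, Polynomial.map_mul, Polynomial.map_C, Polynomial.map_pow,
    Polynomial.map_X]

theorem pl_coeff {n : ℕ} (p : Polynomial R) (h : p.natDegree < n) :
    pl (fun k : Fin n => p.coeff k) = p := by
  rw [pl, ← Finset.sum_range (fun k => Polynomial.C (p.coeff k) * Polynomial.X ^ k)]
  exact (p.as_sum_range_C_mul_X_pow' h).symm

end generic

/-- degree bound of a layer -/
theorem natDegree_lay (D n : ℕ) (w : ℕ → ℕ → ℂ) (h : ℕ → Polynomial ℂ)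
    (hh : ∀ b, (h b).natDegree ≤ D) (a : ℕ) : (lay n w h a).natDegree ≤ 2 * D := by
  apply Polynomial.natDegree_sum_le_of_forall_le
  intro b _
  refine (Polynomial.natDegree_C_mul_le _ _).trans ?_
  refine Polynomial.natDegree_pow_le.trans ?_
  have := hh b
  omega

theorem natDegree_lay0 (w : ℕ → ℕ → ℂ) (a : ℕ) : (lay0 w a).natDegree ≤ 1 := by
  unfold lay0
  refine (Polynomial.natDegree_add_le _ _).trans ?_
  refine max_le (by simp) ?_
  exact (Polynomial.natDegree_C_mul_le _ _).trans Polynomial.natDegree_X_le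

/-- sums over a short range as sums over `Fin 4` -/
theorem sum_range_fin {M : Type} [AddCommMonoid M] {n m : ℕ} (hn : n ≤ m) (f : ℕ → M) :
    ∑ c ∈ Finset.range n, f c = ∑ c : Fin m, if (c : ℕ) < n then f c else 0 := by
  rw [← Finset.sum_range (fun c => if c < n then f c else 0), ← Finset.sum_filter]
  congr 1
  ext c
  simp only [Finset.mem_range, Finset.mem_filter]
  omega

/-- a homogeneous quartic in four variables, evaluated -/
theorem aeval_quartic (G : MvPolynomial (Fin 4) ℂ) (hG : G.IsHomogeneous 4)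
    (z : Fin 4 → Polynomial ℂ) :
    aeval z G = qf (fun α => coeff (Finsupp.equivFunOnFinite.symm (fun j => (α.1 j : ℕ))) G) z := by
  classical
  rw [aeval_def, eval₂_eq']
  have hdeg : ∀ d ∈ G.support, ∑ j, d j = 4 := by
    intro d hd
    have := hG (mem_support_iff.1 hd)
    have h2 : d.degree = 4 := by
      rw [Finsupp.degree_eq_weight_one]; exact this
    rwa [Finsupp.degree_eq_sum] at h2
  unfold qf
  -- injection from A4
  have hinj : Function.Injective
      (fun α : A4 => (Finsupp.equivFunOnFinite.symm (fun j => (α.1 j : ℕ)) : Fin 4 →₀ ℕ)) := by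
    intro α β h
    apply Subtype.ext
    funext j
    apply Fin.ext
    exact DFunLike.congr_fun h j
  rw [Finset.sum_subset (s₁ := G.support) (s₂ := Finset.univ.image
      (fun α : A4 => (Finsupp.equivFunOnFinite.symm (fun j => (α.1 j : ℕ)) : Fin 4 →₀ ℕ)))]
  · rw [Finset.sum_image (fun α _ β _ h => hinj h)]
    rfl
  · intro d hd
    rw [Finset.mem_image]
    have h4 := hdeg d hd
    have hle : ∀ j, d j < 5 := by
      intro j
      have h5 : d j ≤ ∑ j, d j :=
        Finset.single_le_sum (f := fun j => d j) (fun i _ => Nat.zero_le _) (Finset.mem_univ j)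
      omega
    refine ⟨⟨fun j => ⟨d j, hle j⟩, h4⟩, Finset.mem_univ _, ?_⟩
    ext j
    rfl
  · intro d _ hd
    rw [notMem_support_iff.1 hd]
    simp

/-- the upper three layers as a quartic form -/
noncomputable def GG (n4 n5 n6 : ℕ) (W4 W5 W6 : ℕ → ℕ → ℂ) : MvPolynomial (Fin 4) ℂ :=
  ∑ b ∈ Finset.range n6, C (W6 0 b) *
    (∑ c ∈ Finset.range n5, C (W5 b c) *
      (∑ j : Fin 4, if (j : ℕ) < n4 then C (W4 c j) * X j else 0) ^ 2) ^ 2

theorem GG_hom (n4 n5 n6 : ℕ) (W4 W5 W6 : ℕ → ℕ → ℂ) : (GG n4 n5 n6 W4 W5 W6).IsHomogeneous 4 := by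
  apply MvPolynomial.IsHomogeneous.sum
  intro b _
  have h1 : (∑ c ∈ Finset.range n5, C (W5 b c) *
    (∑ j : Fin 4, if (j : ℕ) < n4 then C (W4 c j) * X j else 0) ^ 2 :
      MvPolynomial (Fin 4) ℂ).IsHomogeneous 2 := by
    apply MvPolynomial.IsHomogeneous.sum
    intro c _
    have h2 : (∑ j : Fin 4, if (j : ℕ) < n4 then C (W4 c j) * X j else 0 :
        MvPolynomial (Fin 4) ℂ).IsHomogeneous 1 := by
      apply MvPolynomial.IsHomogeneous.sum
      intro j _
      split_ifs
      · have := (isHomogeneous_C (Fin 4) (W4 c j)).mul (isHomogeneous_X ℂ j)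
        rwa [zero_add] at this
      · exact isHomogeneous_zero _ _ _
    have := (isHomogeneous_C (Fin 4) (W5 b c)).mul (h2.pow 2)
    rwa [zero_add, one_mul] at this
  have := (isHomogeneous_C (Fin 4) (W6 0 b)).mul (h1.pow 2)
  rwa [zero_add] at this

theorem aeval_C' (z : Fin 4 → Polynomial ℂ) (c : ℂ) :
    aeval z (C c : MvPolynomial (Fin 4) ℂ) = Polynomial.C c := by
  rw [MvPolynomial.aeval_C]; rfl

theorem aeval_GG (n4 n5 n6 : ℕ) (h4 : n4 ≤ 4) (W4 W5 W6 : ℕ → ℕ → ℂ) (h : ℕ → Polynomial ℂ) :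
    lay n6 W6 (lay n5 W5 (lay n4 W4 h)) 0 =
      aeval (fun j : Fin 4 => (h j) ^ 2) (GG n4 n5 n6 W4 W5 W6) := by
  unfold lay GG
  rw [map_sum]
  refine Finset.sum_congr rfl (fun b _ => ?_)
  rw [map_mul, map_pow, aeval_C', map_sum]
  refine congrArg (fun t => Polynomial.C (W6 0 b) * t ^ 2) ?_
  refine Finset.sum_congr rfl (fun c _ => ?_)
  rw [map_mul, map_pow, aeval_C', map_sum]
  refine congrArg (fun t => Polynomial.C (W5 b c) * t ^ 2) ?_
  rw [sum_range_fin h4]
  refine Finset.sum_congr rfl (fun j _ => ?_)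
  split_ifs with hj
  · rw [map_mul, aeval_C', MvPolynomial.aeval_X]
  · rw [map_zero]

theorem upper (n4 n5 n6 : ℕ) (h4 : n4 ≤ 4) (W4 W5 W6 : ℕ → ℕ → ℂ) :
    ∃ q : A4 → ℂ, ∀ h : ℕ → Polynomial ℂ,
      lay n6 W6 (lay n5 W5 (lay n4 W4 h)) 0 = qf q (fun j : Fin 4 => (h j) ^ 2) :=
  ⟨fun α => coeff (Finsupp.equivFunOnFinite.symm (fun j => (α.1 j : ℕ))) (GG n4 n5 n6 W4 W5 W6),
    fun h => (aeval_GG n4 n5 n6 h4 W4 W5 W6 h).trans
      (aeval_quartic _ (GG_hom n4 n5 n6 W4 W5 W6) _)⟩

/-- the general obstruction: too few parameters -/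
theorem not_dense {σ : Type} [Fintype σ] (hcard : Fintype.card σ < 65)
    (Out : Polynomial (MvPolynomial σ ℂ)) (e : Fin 8 → ℕ)
    (h : ∀ W, ∃ x : σ → ℂ, U e W 0 = Out.map (eval x)) : ¬ Dense e := by
  intro hD
  obtain ⟨P, hne, hP⟩ := exists_dep hcard (fun i : Fin 65 => Out.coeff i)
  apply hne
  apply hD
  intro W
  obtain ⟨x, hx⟩ := h W
  have h1 : (fun i : Fin 65 => (U e W 0).coeff (i : ℕ)) = fun i : Fin 65 => eval x (Out.coeff i) := by
    funext i
    rw [hx, Polynomial.coeff_map]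
  rw [h1]
  have h2 := congrArg (eval x) hP
  rw [map_zero] at h2
  rw [← h2, ← MvPolynomial.coe_aeval_eq_eval, ← MvPolynomial.coe_aeval_eq_eval,
    RingHom.coe_coe, RingHom.coe_coe, ← AlgHom.comp_apply, MvPolynomial.comp_aeval]

/-! ### case (a): `d₄ ≤ 3` -/

/-- generic output in case (a) -/
noncomputable def outA {R : Type} [CommRing R] (x : (Fin 3 × Fin 9) ⊕ A4 → R) : Polynomial R :=
  qf (fun α => x (Sum.inr α)) (fun j : Fin 4 =>
    (if h : (j : ℕ) < 3 then pl (fun k => x (Sum.inl (⟨j, h⟩, k))) else 0) ^ 2)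

theorem map_outA {R S : Type} [CommRing R] [CommRing S] (f : R →+* S)
    (x : (Fin 3 × Fin 9) ⊕ A4 → R) : (outA x).map f = outA (fun i => f (x i)) := by
  unfold outA
  rw [map_qf]
  congr 1
  funext j
  rw [Polynomial.map_pow]
  split_ifs
  · rw [map_pl]
  · rw [Polynomial.map_zero]

theorem not_dense_a (e : Fin 8 → ℕ) (he4 : e 4 ≤ 3) : ¬ Dense e := by
  have hc : Fintype.card ((Fin 3 × Fin 9) ⊕ A4) < 65 := by
    rw [Fintype.card_sum, card_A4]; simp
  refine not_dense hc (outA (fun i => X i)) e (fun W => ?_)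
  obtain ⟨q, hq⟩ := upper (e 4) (e 5) (e 6) (by omega) (W 4) (W 5) (W 6)
  set h4 : ℕ → Polynomial ℂ := lay (e 3) (W 3) (lay (e 2) (W 2) (lay (e 1) (W 1) (lay0 (W 0)))) with hh4
  have hdeg : ∀ j, (h4 j).natDegree < 9 := by
    intro j
    have := natDegree_lay 4 (e 3) (W 3) _ (natDegree_lay 2 (e 2) (W 2) _
      (natDegree_lay 1 (e 1) (W 1) _ (natDegree_lay0 (W 0)))) j
    rw [hh4]; omega
  refine ⟨Sum.elim (fun p => (h4 p.1).coeff p.2) q, ?_⟩
  rw [map_outA]
  simp only [eval_X]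
  -- only the first three of the `h4` are used
  have h0 : U e W 0 = lay (e 6) (W 6) (lay (e 5) (W 5) (lay (e 4) (W 4)
      (fun j => if j < 3 then h4 j else 0))) 0 := by
    unfold U
    rw [← hh4]
    have : lay (e 4) (W 4) h4 = lay (e 4) (W 4) (fun j => if j < 3 then h4 j else 0) := by
      funext a
      unfold lay
      refine Finset.sum_congr rfl (fun b hb => ?_)
      have := Finset.mem_range.1 hb
      show _ = Polynomial.C (W 4 a b) * (if b < 3 then h4 b else 0) ^ 2
      rw [if_pos (by omega)]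
    rw [this]
  rw [h0, hq]
  have key : (fun j : Fin 4 => ((fun j => if j < 3 then h4 j else 0) (j : ℕ)) ^ 2) =
      fun j : Fin 4 => (if h : (j : ℕ) < 3 then
        pl (fun k : Fin 9 => (h4 ((⟨(j : ℕ), h⟩ : Fin 3) : ℕ)).coeff k) else 0) ^ 2 := by
    funext j
    refine congrArg (fun t : Polynomial ℂ => t ^ 2) ?_
    show (if (j : ℕ) < 3 then h4 j else 0) = _
    by_cases hj : (j : ℕ) < 3
    · rw [if_pos hj, dif_pos hj]
      exact (pl_coeff _ (hdeg j)).symm
    · rw [if_neg hj, dif_neg hj]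
  exact congrArg (fun z => qf q z) key

end Pool.Agent.H486N
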