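import Pool.Agent.H486_Neuro.Cert
import Pool.Agent.H486_Neuro.Neg

set_option autoImplicit false

open Polynomial Finset

namespace Pool.Agent.H486N

/-- the four octics of the base point -/
noncomputable def yz : Fin 4 → Polynomial ℤ :=
  ![X ^ 8 + X ^ 5 + X, X ^ 8 + X ^ 3 + 1, X ^ 8 + X ^ 3 + X ^ 2 + 1,
    X ^ 8 + X ^ 7 + X ^ 5 + X ^ 3 + 1]

/-- reduction modulo 2 -/
noncomputable def red : Polynomial ℤ →+* Polynomial (ZMod 2) := mapRingHom (Int.castRingHom (ZMod 2))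

theorem red0 : red (yz 0) = toP 290 := by
  rw [show (290 : ℕ) = 2 ^ 8 ^^^ 2 ^ 5 ^^^ 2 ^ 1 by decide, toP_xor, toP_xor, toP_two_pow,
    toP_two_pow, toP_two_pow]
  simp [red, yz]

theorem red1 : red (yz 1) = toP 265 := by
  rw [show (265 : ℕ) = 2 ^ 8 ^^^ 2 ^ 3 ^^^ 2 ^ 0 by decide, toP_xor, toP_xor, toP_two_pow,
    toP_two_pow, toP_two_pow]
  simp [red, yz]

theorem red2 : red (yz 2) = toP 269 := by
  rw [show (269 : ℕ) = 2 ^ 8 ^^^ 2 ^ 3 ^^^ 2 ^ 2 ^^^ 2 ^ 0 by decide, toP_xor, toP_xor, toP_xor,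
    toP_two_pow, toP_two_pow, toP_two_pow, toP_two_pow]
  simp [red, yz]

theorem red3 : red (yz 3) = toP 425 := by
  rw [show (425 : ℕ) = 2 ^ 8 ^^^ 2 ^ 7 ^^^ 2 ^ 5 ^^^ 2 ^ 3 ^^^ 2 ^ 0 by decide, toP_xor, toP_xor,
    toP_xor, toP_xor, toP_two_pow, toP_two_pow, toP_two_pow, toP_two_pow, toP_two_pow]
  simp [red, yz]

theorem toP_clpow (a n : ℕ) (h : ∀ m < n, clpow a m < 2 ^ 66) : toP (clpow a n) = toP a ^ n := by
  induction n with
  | zero => rw [clpow, toP_one, pow_zero]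
  | succ n ih =>
    rw [clpow, toP_clmul _ _ _ (h n (Nat.lt_succ_self n)), ih (fun m hm => h m (by omega)), pow_succ]

theorem toP_shift (k a : ℕ) : toP (2 ^ k * a) = X ^ k * toP a := by
  induction k with
  | zero => simp
  | succ k ih => rw [pow_succ', mul_assoc, toP_two_mul, ih, pow_succ']; ring

theorem bounds_pow : ∀ a ∈ [clmul 66 290 290, clmul 66 265 265, clmul 66 269 269, clmul 66 425 425],
    ∀ m < 4, clpow a m < 2 ^ 66 := by decide +kernel

theorem bounds_sq : 290 < 2 ^ 66 ∧ 265 < 2 ^ 66 ∧ 269 < 2 ^ 66 ∧ 425 < 2 ^ 66 := by decide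

theorem bounds_row : ∀ t ∈ alphaL, (clpow (clmul 66 290 290) t.1 < 2 ^ 66) ∧
    (clmul 66 (clpow (clmul 66 290 290) t.1) (clpow (clmul 66 265 265) t.2.1) < 2 ^ 66) ∧
    (clmul 66 (clmul 66 (clpow (clmul 66 290 290) t.1) (clpow (clmul 66 265 265) t.2.1))
      (clpow (clmul 66 269 269) t.2.2.1) < 2 ^ 66) ∧ t.1 + t.2.1 + t.2.2.1 + t.2.2.2 = 4 := by
  decide +kernel

theorem toP_rowA (t : ℕ × ℕ × ℕ × ℕ) (ht : t ∈ alphaL) :
    toP (rowA t.1 t.2.1 t.2.2.1 t.2.2.2) =
      red ((yz 0 ^ 2) ^ t.1 * (yz 1 ^ 2) ^ t.2.1 * (yz 2 ^ 2) ^ t.2.2.1 * (yz 3 ^ 2) ^ t.2.2.2) := by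
  obtain ⟨h1, h2, h3, h4⟩ := bounds_row t ht
  have hb := bounds_pow
  rw [rowA, toP_clmul _ _ _ h3, toP_clmul _ _ _ h2, toP_clmul _ _ _ h1,
    toP_clpow _ _ (fun m hm => hb _ (by simp) m (by omega)),
    toP_clpow _ _ (fun m hm => hb (clmul 66 265 265) (by simp) m (by omega)),
    toP_clpow _ _ (fun m hm => hb (clmul 66 269 269) (by simp) m (by omega)),
    toP_clpow _ _ (fun m hm => hb (clmul 66 425 425) (by simp) m (by omega)),
    toP_clmul _ _ _ bounds_sq.1, toP_clmul _ _ _ bounds_sq.2.1, toP_clmul _ _ _ bounds_sq.2.2.1,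
    toP_clmul _ _ _ bounds_sq.2.2.2]
  simp only [map_mul, map_pow, red0, red1, red2, red3]
  ring

/-- the integer rows -/
def RowsZ : Set (Polynomial ℤ) :=
  {p | ∃ α : A4, p = ∏ j, (yz j ^ 2) ^ (α.1 j : ℕ)} ∪
  {p | ∃ (j : Fin 4) (k : Fin 9), p = (∏ l, yz l) * (∏ l ∈ Finset.univ.erase j, yz l) * X ^ (k : ℕ)}

theorem row_mem_A (t : ℕ × ℕ × ℕ × ℕ) (ht : t ∈ alphaL) :
    toP (rowA t.1 t.2.1 t.2.2.1 t.2.2.2) ∈ red '' RowsZ := by
  obtain ⟨a, b, c, d⟩ := t
  obtain ⟨h1, h2, h3, h4⟩ := bounds_row _ ht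
  simp only at h4
  rw [toP_rowA _ ht]
  refine ⟨_, Or.inl ⟨⟨![⟨a, by omega⟩, ⟨b, by omega⟩, ⟨c, by omega⟩, ⟨d, by omega⟩], ?_⟩, rfl⟩, ?_⟩
  · rw [Fin.sum_univ_four]; exact h4
  · rw [Fin.prod_univ_four]
    rfl

theorem bounds_g : clmul 66 290 265 < 2 ^ 66 ∧ clmul 66 (clmul 66 290 265) 269 < 2 ^ 66 ∧
    clmul 66 (clmul 66 (clmul 66 290 265) 269) 425 < 2 ^ 66 ∧
    clmul 66 (clmul 66 (clmul 66 (clmul 66 290 265) 269) 425) 265 < 2 ^ 66 ∧
    clmul 66 (clmul 66 (clmul 66 (clmul 66 290 265) 269) 425) 290 < 2 ^ 66 ∧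
    clmul 66 (clmul 66 (clmul 66 (clmul 66 (clmul 66 290 265) 269) 425) 265) 269 < 2 ^ 66 ∧
    clmul 66 (clmul 66 (clmul 66 (clmul 66 (clmul 66 290 265) 269) 425) 290) 269 < 2 ^ 66 ∧
    clmul 66 (clmul 66 (clmul 66 (clmul 66 (clmul 66 290 265) 269) 425) 290) 265 < 2 ^ 66 := by
  decide +kernel

theorem er0 : (Finset.univ.erase (0 : Fin 4)) = {1, 2, 3} := by decide
theorem er1 : (Finset.univ.erase (1 : Fin 4)) = {0, 2, 3} := by decide
theorem er2 : (Finset.univ.erase (2 : Fin 4)) = {0, 1, 3} := by decide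
theorem er3 : (Finset.univ.erase (3 : Fin 4)) = {0, 1, 2} := by decide

theorem row_mem_B (t : ℕ × ℕ) (ht : t ∈ jkL) : toP (2 ^ t.2 * gB t.1) ∈ red '' RowsZ := by
  obtain ⟨j, k⟩ := t
  have hjk : j < 4 ∧ k < 9 := by
    have : ∀ t ∈ jkL, t.1 < 4 ∧ t.2 < 9 := by decide
    exact this _ ht
  obtain ⟨hj, hk⟩ := hjk
  obtain ⟨b1, b2, b3, b4, b5, b6, b7, b8⟩ := bounds_g
  obtain ⟨c1, c2, c3, c4⟩ := bounds_sq
  refine ⟨_, Or.inr ⟨⟨j, hj⟩, ⟨k, hk⟩, rfl⟩, ?_⟩
  rw [toP_shift, map_mul, map_mul, map_prod, map_prod, Fin.prod_univ_four, red0, red1, red2, red3]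
  have hX : red ((X : Polynomial ℤ) ^ k) = X ^ k := by
    simp [red]
  simp only [hX]
  interval_cases j
  · have : (Finset.univ.erase (⟨0, hj⟩ : Fin 4)) = {1, 2, 3} := er0
    rw [this, Finset.prod_insert (by decide), Finset.prod_insert (by decide), Finset.prod_singleton,
      red1, red2, red3, gB, toP_clmul _ _ _ b6, toP_clmul _ _ _ b4, toP_clmul _ _ _ b3,
      toP_clmul _ _ _ b2, toP_clmul _ _ _ b1, toP_clmul _ _ _ c1]
    ring
  · have : (Finset.univ.erase (⟨1, hj⟩ : Fin 4)) = {0, 2, 3} := er1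
    rw [this, Finset.prod_insert (by decide), Finset.prod_insert (by decide), Finset.prod_singleton,
      red0, red2, red3, gB, toP_clmul _ _ _ b7, toP_clmul _ _ _ b5, toP_clmul _ _ _ b3,
      toP_clmul _ _ _ b2, toP_clmul _ _ _ b1, toP_clmul _ _ _ c1]
    ring
  · have : (Finset.univ.erase (⟨2, hj⟩ : Fin 4)) = {0, 1, 3} := er2
    rw [this, Finset.prod_insert (by decide), Finset.prod_insert (by decide), Finset.prod_singleton,
      red0, red1, red3, gB, toP_clmul _ _ _ b8, toP_clmul _ _ _ b5, toP_clmul _ _ _ b3,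
      toP_clmul _ _ _ b2, toP_clmul _ _ _ b1, toP_clmul _ _ _ c1]
    ring
  · have : (Finset.univ.erase (⟨3, hj⟩ : Fin 4)) = {0, 1, 2} := er3
    have hg : gB 3 = clmul 66 (clmul 66 (clmul 66 (clmul 66 (clmul 66 (clmul 66 290 265) 269) 425) 290)
      265) 269 := rfl
    rw [this, Finset.prod_insert (by decide), Finset.prod_insert (by decide), Finset.prod_singleton,
      red0, red1, red2, hg, toP_clmul _ _ _ b8, toP_clmul _ _ _ b5, toP_clmul _ _ _ b3,
      toP_clmul _ _ _ b2, toP_clmul _ _ _ b1, toP_clmul _ _ _ c1]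
    ring

theorem row_mem (m : ℕ) (hm : m ∈ rowLit) : toP m ∈ red '' RowsZ := by
  rw [← rows_ok, List.mem_append, List.mem_map, List.mem_map] at hm
  rcases hm with ⟨t, ht, rfl⟩ | ⟨t, ht, rfl⟩
  · exact row_mem_A t ht
  · exact row_mem_B t ht

theorem comb_mem (L : List ℕ) (G : AddSubgroup (Polynomial (ZMod 2)))
    (hL : ∀ m ∈ L, toP m ∈ G) (s : ℕ) : toP (comb L s) ∈ G := by
  induction L generalizing s with
  | nil => rw [comb, toP_zero]; exact G.zero_mem
  | cons r L ih =>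
    rw [comb, toP_xor]
    refine G.add_mem ?_ (ih (fun m hm => hL m (List.mem_cons_of_mem _ hm)) _)
    rcases Nat.mod_two_eq_zero_or_one s with h | h
    · rw [h, zero_mul, toP_zero]; exact G.zero_mem
    · rw [h, one_mul]; exact hL r List.mem_cons_self

theorem lift (i : ℕ) (hi : i < 65) :
    ∃ K ∈ AddSubgroup.closure RowsZ, red K = (X : Polynomial (ZMod 2)) ^ i := by
  have h1 : ((X : Polynomial (ZMod 2)) ^ i) ∈ AddSubgroup.closure (red '' RowsZ) := by
    have h2 : (2 ^ i) ∈ certL.map (comb rowLit) := by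
      rw [cert_ok, List.mem_map]
      exact ⟨i, List.mem_range.2 hi, rfl⟩
    rw [List.mem_map] at h2
    obtain ⟨s, _, hs⟩ := h2
    rw [← toP_two_pow, ← hs]
    exact comb_mem _ _ (fun m hm => AddSubgroup.subset_closure (row_mem m hm)) s
  have h2 : AddSubgroup.closure (red '' RowsZ) =
      (AddSubgroup.closure RowsZ).map (red : Polynomial ℤ →+ Polynomial (ZMod 2)) := by
    rw [AddMonoidHom.map_closure]
    rfl
  rw [h2] at h1
  obtain ⟨K, hK, hK2⟩ := h1
  exact ⟨K, hK, hK2⟩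

theorem yz_deg (j : Fin 4) : (yz j).natDegree ≤ 8 := by
  fin_cases j
  · show (X ^ 8 + X ^ 5 + X : Polynomial ℤ).natDegree ≤ 8
    compute_degree
  · show (X ^ 8 + X ^ 3 + 1 : Polynomial ℤ).natDegree ≤ 8
    compute_degree
  · show (X ^ 8 + X ^ 3 + X ^ 2 + 1 : Polynomial ℤ).natDegree ≤ 8
    compute_degree
  · show (X ^ 8 + X ^ 7 + X ^ 5 + X ^ 3 + 1 : Polynomial ℤ).natDegree ≤ 8
    compute_degree

theorem rows_deg (p : Polynomial ℤ) (hp : p ∈ RowsZ) : p.natDegree ≤ 64 := by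
  rcases hp with ⟨α, rfl⟩ | ⟨j, k, rfl⟩
  · refine (natDegree_prod_le _ _).trans ?_
    have h1 : ∀ j, ((yz j ^ 2) ^ (α.1 j : ℕ)).natDegree ≤ 16 * (α.1 j : ℕ) := by
      intro j
      refine natDegree_pow_le.trans ?_
      have h2 : (yz j ^ 2).natDegree ≤ 16 := by
        refine natDegree_pow_le.trans ?_
        have := yz_deg j
        omega
      calc (α.1 j : ℕ) * (yz j ^ 2).natDegree ≤ (α.1 j : ℕ) * 16 := Nat.mul_le_mul_left _ h2
        _ = 16 * (α.1 j : ℕ) := mul_comm _ _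
    refine (Finset.sum_le_sum (fun j _ => h1 j)).trans ?_
    rw [← Finset.mul_sum, α.2]
    norm_num
  · refine natDegree_mul_le.trans ?_
    have h1 : ((∏ l, yz l) * (∏ l ∈ Finset.univ.erase j, yz l)).natDegree ≤ 56 := by
      refine natDegree_mul_le.trans ?_
      have h2 : (∏ l, yz l).natDegree ≤ 32 := by
        refine (natDegree_prod_le _ _).trans ?_
        refine (Finset.sum_le_sum (fun j _ => yz_deg j)).trans ?_
        simp
      have h3 : (∏ l ∈ Finset.univ.erase j, yz l).natDegree ≤ 24 := by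
        refine (natDegree_prod_le _ _).trans ?_
        refine (Finset.sum_le_sum (fun j _ => yz_deg j)).trans ?_
        rw [Finset.sum_const, Finset.card_erase_of_mem (Finset.mem_univ j)]
        simp
      omega
    have h4 : ((X : Polynomial ℤ) ^ (k : ℕ)).natDegree ≤ 8 := by
      refine (natDegree_X_pow_le _).trans ?_
      omega
    omega

/-- the complexified rows span all polynomials of degree at most 64 -/
theorem span_all (V : Submodule ℂ (Polynomial ℂ))
    (hV : ∀ p ∈ RowsZ, p.map (Int.castRingHom ℂ) ∈ V) (p : Polynomial ℂ) (hp : p.natDegree ≤ 64) :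
    p ∈ V := by
  choose K hK hK2 using fun i : Fin 65 => lift i i.2
  have hKV : ∀ i, (K i).map (Int.castRingHom ℂ) ∈ V := by
    intro i
    have h1 : AddSubgroup.closure RowsZ ≤
        (V.toAddSubgroup).comap (mapRingHom (Int.castRingHom ℂ) : Polynomial ℤ →+ Polynomial ℂ) := by
      rw [AddSubgroup.closure_le]
      intro q hq
      exact hV q hq
    exact h1 (hK i)
  have hKd : ∀ i, (K i).natDegree ≤ 64 := by
    intro i
    have h1 : AddSubgroup.closure RowsZ ≤ (degreeLT ℤ 65).toAddSubgroup := by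
      rw [AddSubgroup.closure_le]
      intro q hq
      have := rows_deg q hq
      show q ∈ degreeLT ℤ 65
      rw [mem_degreeLT]
      exact lt_of_le_of_lt degree_le_natDegree (by exact_mod_cast Nat.lt_succ_of_le this)
    have h2 := h1 (hK i)
    have h3 : K i ∈ degreeLT ℤ 65 := h2
    rw [mem_degreeLT] at h3
    by_contra hcon
    push Not at hcon
    have hne : K i ≠ 0 := by
      intro h; rw [h] at hcon; simp at hcon
    rw [degree_eq_natDegree hne] at h3
    have : (K i).natDegree < 65 := by exact_mod_cast h3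
    omega
  -- the matrix
  set M : Matrix (Fin 65) (Fin 65) ℤ := Matrix.of fun i k => (K i).coeff (k : ℕ) with hM
  have hdet2 : (Int.castRingHom (ZMod 2)) M.det = 1 := by
    rw [RingHom.map_det]
    have : (Int.castRingHom (ZMod 2)).mapMatrix M = 1 := by
      ext i k
      rw [RingHom.mapMatrix_apply, Matrix.map_apply, hM, Matrix.of_apply]
      have h1 := congrArg (fun q => q.coeff (k : ℕ)) (hK2 i)
      simp only [red, coe_mapRingHom, coeff_map, coeff_X_pow] at h1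
      rw [h1, Matrix.one_apply]
      simp only [Fin.ext_iff, eq_comm]
    rw [this, Matrix.det_one]
  have hdet : M.det ≠ 0 := by
    intro h
    rw [h, map_zero] at hdet2
    exact zero_ne_one hdet2
  set MC : Matrix (Fin 65) (Fin 65) ℂ := M.map (Int.castRingHom ℂ) with hMC
  have hdetC : IsUnit MC.det := by
    rw [isUnit_iff_ne_zero, hMC]
    have : (M.map (Int.castRingHom ℂ)).det = (Int.castRingHom ℂ) M.det := by
      rw [RingHom.map_det]; rfl
    rw [this]
    simpa using hdet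
  have hinv : MC⁻¹ * MC = 1 := Matrix.nonsing_inv_mul _ hdetC
  -- each monomial lies in `V`
  have hmon : ∀ k : Fin 65, (X : Polynomial ℂ) ^ (k : ℕ) ∈ V := by
    intro k
    have h1 : (X : Polynomial ℂ) ^ (k : ℕ) = ∑ i, MC⁻¹ k i • (K i).map (Int.castRingHom ℂ) := by
      ext n
      rw [finsetSum_coeff]
      simp only [coeff_smul, coeff_map, smul_eq_mul, coeff_X_pow]
      by_cases hn : n < 65
      · have h2 := congrFun (congrFun hinv k) ⟨n, hn⟩
        rw [Matrix.mul_apply, Matrix.one_apply] at h2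
        have h3 : ∀ i, MC i ⟨n, hn⟩ = (Int.castRingHom ℂ) ((K i).coeff n) := fun i => rfl
        simp only [h3] at h2
        rw [h2]
        simp only [Fin.ext_iff, eq_comm]
      · rw [if_neg (by omega)]
        symm
        apply Finset.sum_eq_zero
        intro i _
        rw [coeff_eq_zero_of_natDegree_lt (lt_of_le_of_lt (hKd i) (by omega)), map_zero, mul_zero]
    rw [h1]
    exact V.sum_mem (fun i _ => V.smul_mem _ (hKV i))
  have h5 : p = ∑ k ∈ Finset.range 65, p.coeff k • (X : Polynomial ℂ) ^ k := by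
    conv_lhs => rw [p.as_sum_range_C_mul_X_pow' (show p.natDegree < 65 by omega)]
    simp only [smul_eq_C_mul]
  rw [h5]
  refine V.sum_mem (fun k hk => V.smul_mem _ ?_)
  exact hmon ⟨k, Finset.mem_range.1 hk⟩

end Pool.Agent.H486N
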