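import Mathlib

set_option autoImplicit false

open MvPolynomial

namespace Pool.Agent.H486N

/-- More polynomials than variables are algebraically dependent. -/
theorem exists_dep {σ : Type} [Fintype σ] {n : ℕ} (h : Fintype.card σ < n)
    (Ψ : Fin n → MvPolynomial σ ℂ) :
    ∃ P : MvPolynomial (Fin n) ℂ, P ≠ 0 ∧ aeval Ψ P = 0 := by
  by_contra hcon
  push Not at hcon
  have hind : AlgebraicIndependent ℂ Ψ := by
    rw [AlgebraicIndependent, injective_iff_map_eq_zero]
    intro P hP
    by_contra hne
    exact hcon P hne hP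
  have h1 := hind.cardinalMk_le_trdeg
  rw [MvPolynomial.trdeg_of_isDomain] at h1
  simp only [Cardinal.mk_fintype, Fintype.card_fin, Cardinal.lift_natCast, Nat.cast_le] at h1
  omega

/-- A polynomial vanishing on a nonempty open subset of `ℂⁿ` is zero. -/
theorem eq_zero_of_open {n : ℕ} (P : MvPolynomial (Fin n) ℂ) (U : Set (Fin n → ℂ))
    (hU : IsOpen U) (hne : U.Nonempty) (h : ∀ v ∈ U, eval v P = 0) : P = 0 := by
  obtain ⟨v, hv⟩ := hne
  rw [isOpen_pi_iff'] at hU
  obtain ⟨u, hu, hsub⟩ := hU v hv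
  apply MvPolynomial.funext_set u
  · intro i
    exact infinite_of_mem_nhds (v i) ((hu i).1.mem_nhds (hu i).2)
  · intro x hx
    rw [map_zero]
    exact h x (hsub hx)

end Pool.Agent.H486N
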