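import Pool.Agent.H486_Neuro.Neg

set_option autoImplicit false

open MvPolynomial Finset

namespace Pool.Agent.H486N

/-! ### case (b): `d₄ ≤ 4`, `d₃ ≤ 4` -/

/-- output for given parameters in case (b) -/
noncomputable def outB {R : Type} [CommRing R] (u : Fin 4 → Fin 5 → R) (w : Fin 4 → Fin 4 → R)
    (q : A4 → R) : Polynomial R :=
  qf q (fun j => (∑ i, Polynomial.C (w j i) * (pl (u i)) ^ 2) ^ 2)

theorem map_outB {R S : Type} [CommRing R] [CommRing S] (f : R →+* S)
    (u : Fin 4 → Fin 5 → R) (w : Fin 4 → Fin 4 → R) (q : A4 → R) :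
    (outB u w q).map f = outB (fun i k => f (u i k)) (fun j i => f (w j i)) (fun α => f (q α)) := by
  unfold outB
  rw [map_qf]
  simp only [Polynomial.map_mul, Polynomial.map_pow, Polynomial.map_C, Polynomial.map_sum, map_pl]

/-- all parameters -/
abbrev SB : Type := (Fin 4 × Fin 5) ⊕ ((Fin 4 × Fin 4) ⊕ A4)

/-- normalised parameters -/
abbrev TB : Type := (Fin 4 × Fin 5) ⊕ ((Fin 3 × Fin 3) ⊕ A4)

theorem card_TB : Fintype.card TB < 65 := by
  rw [Fintype.card_sum, Fintype.card_sum, card_A4]; simp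

/-- extend a `3 × 3` matrix by ones -/
def extM {R : Type} [One R] (m : Fin 3 × Fin 3 → R) (j i : Fin 4) : R :=
  if hj : j = 0 then 1 else if hi : i = 0 then 1 else m (j.pred hj, i.pred hi)

/-- scaling a quartic form -/
theorem qf_scale (q : A4 → ℂ) (r : Fin 4 → ℂ) (z : Fin 4 → Polynomial ℂ) :
    qf q (fun j => (Polynomial.C (r j) * z j) ^ 2) =
      qf (fun α => q α * ∏ j, (r j ^ 2) ^ (α.1 j : ℕ)) (fun j => z j ^ 2) := by
  unfold qf
  refine Finset.sum_congr rfl (fun α _ => ?_)
  rw [map_mul, map_prod, mul_assoc, ← Finset.prod_mul_distrib]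
  refine congrArg (fun t => Polynomial.C (q α) * t) ?_
  refine Finset.prod_congr rfl (fun j _ => ?_)
  show ((Polynomial.C (r j) * z j) ^ 2) ^ (α.1 j : ℕ) = _ * (z j ^ 2) ^ (α.1 j : ℕ)
  rw [mul_pow, mul_pow, map_pow, map_pow]

theorem normalise (u : Fin 4 → Fin 5 → ℂ) (w : Fin 4 → Fin 4 → ℂ) (q : A4 → ℂ)
    (hw : ∀ j i, w j i ≠ 0) :
    ∃ (u' : Fin 4 → Fin 5 → ℂ) (m : Fin 3 × Fin 3 → ℂ) (q' : A4 → ℂ),
      outB u w q = outB u' (extM m) q' := by
  -- square roots of the first row
  have hs : ∀ i, ∃ s : ℂ, s ^ 2 = w 0 i := fun i => IsAlgClosed.exists_pow_nat_eq _ (by norm_num)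
  choose s hs using hs
  set r : Fin 4 → ℂ := fun j => w j 0 / w 0 0 with hr
  have hr0 : ∀ j, r j ≠ 0 := fun j => div_ne_zero (hw _ _) (hw _ _)
  set m : Fin 3 × Fin 3 → ℂ := fun p => w p.1.succ p.2.succ / (r p.1.succ * w 0 p.2.succ) with hm
  have hext : ∀ j i, extM m j i * r j * w 0 i = w j i := by
    intro j i
    unfold extM
    split_ifs with hj hi
    · subst hj
      have := hw 0 0
      simp only [hr]
      field_simp
    · subst hi
      have := hw 0 0
      simp only [hr]
      field_simp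
    · obtain ⟨j', rfl⟩ := Fin.exists_succ_eq.2 hj
      obtain ⟨i', rfl⟩ := Fin.exists_succ_eq.2 hi
      simp only [hm, Fin.pred_succ]
      have h1 := hr0 j'.succ
      have h2 := hw 0 i'.succ
      field_simp
  refine ⟨fun i k => s i * u i k, m, fun α => q α * ∏ j, (r j ^ 2) ^ (α.1 j : ℕ), ?_⟩
  unfold outB
  rw [← qf_scale]
  refine congrArg (fun z => qf q z) ?_
  funext j
  refine congrArg (fun t : Polynomial ℂ => t ^ 2) ?_
  rw [Finset.mul_sum]
  refine Finset.sum_congr rfl (fun i _ => ?_)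
  have h1 : pl (fun k => s i * u i k) = Polynomial.C (s i) * pl (u i) := by
    unfold pl
    rw [Finset.mul_sum]
    refine Finset.sum_congr rfl (fun k _ => ?_)
    rw [map_mul, mul_assoc]
  rw [h1, mul_pow, ← map_pow, hs, ← hext j i, map_mul, map_mul]
  ring

theorem not_dense_b (e : Fin 8 → ℕ) (he4 : e 4 ≤ 4) (he3 : e 3 ≤ 4) : ¬ Dense e := by
  intro hD
  -- the normalised family
  set OutT : Polynomial (MvPolynomial TB ℂ) := outB (fun i k => X (Sum.inl (i, k)))
    (extM (fun p => X (Sum.inr (Sum.inl p)))) (fun α => X (Sum.inr (Sum.inr α))) with hOT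
  set OutS : Polynomial (MvPolynomial SB ℂ) := outB (fun i k => X (Sum.inl (i, k)))
    (fun j i => X (Sum.inr (Sum.inl (j, i)))) (fun α => X (Sum.inr (Sum.inr α))) with hOS
  obtain ⟨P, hne, hP⟩ := exists_dep card_TB (fun i : Fin 65 => OutT.coeff i)
  apply hne
  -- values of `P` on normalised outputs
  have hT : ∀ (u : Fin 4 → Fin 5 → ℂ) (m : Fin 3 × Fin 3 → ℂ) (q : A4 → ℂ),
      eval (fun i : Fin 65 => (outB u (extM m) q).coeff (i : ℕ)) P = 0 := by
    intro u m q
    set x : TB → ℂ := Sum.elim (fun p => u p.1 p.2) (Sum.elim m q) with hx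
    have h1 : outB u (extM m) q = OutT.map (eval x) := by
      rw [hOT, map_outB]
      simp only [eval_X, hx, Sum.elim_inl, Sum.elim_inr]
      congr 1
      funext j i
      unfold extM
      split_ifs
      · rw [map_one]
      · rw [map_one]
      · rw [eval_X]; rfl
    have h2 : (fun i : Fin 65 => (outB u (extM m) q).coeff (i : ℕ)) =
        fun i : Fin 65 => eval x (OutT.coeff i) := by
      funext i
      rw [h1, Polynomial.coeff_map]
    rw [h2]
    have h3 := congrArg (eval x) hP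
    rw [map_zero] at h3
    rw [← h3, ← MvPolynomial.coe_aeval_eq_eval, ← MvPolynomial.coe_aeval_eq_eval,
      RingHom.coe_coe, RingHom.coe_coe, ← AlgHom.comp_apply, MvPolynomial.comp_aeval]
  -- the full family
  set R : MvPolynomial SB ℂ := aeval (fun i : Fin 65 => OutS.coeff i) P with hR
  have hRev : ∀ x : SB → ℂ, eval x R = eval (fun i : Fin 65 => (outB (fun i k => x (Sum.inl (i, k)))
      (fun j i => x (Sum.inr (Sum.inl (j, i)))) (fun α => x (Sum.inr (Sum.inr α)))).coeff (i : ℕ)) P := by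
    intro x
    have h1 : (outB (fun i k => x (Sum.inl (i, k)))
      (fun j i => x (Sum.inr (Sum.inl (j, i)))) (fun α => x (Sum.inr (Sum.inr α)))) =
        OutS.map (eval x) := by
      rw [hOS, map_outB]
      simp only [eval_X]
    have h2 : (fun i : Fin 65 => (outB (fun i k => x (Sum.inl (i, k)))
      (fun j i => x (Sum.inr (Sum.inl (j, i)))) (fun α => x (Sum.inr (Sum.inr α)))).coeff (i : ℕ)) =
        fun i : Fin 65 => eval x (OutS.coeff i) := by
      funext i
      rw [h1, Polynomial.coeff_map]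
    rw [h2, hR, ← MvPolynomial.coe_aeval_eq_eval, ← MvPolynomial.coe_aeval_eq_eval,
      RingHom.coe_coe, RingHom.coe_coe, ← AlgHom.comp_apply, MvPolynomial.comp_aeval]
  have hR0 : R = 0 := by
    have h1 : R * ∏ p : Fin 4 × Fin 4, X (Sum.inr (Sum.inl p)) = 0 := by
      apply MvPolynomial.funext
      intro x
      rw [map_mul, map_zero, map_prod]
      simp only [eval_X]
      by_cases hx : ∀ p : Fin 4 × Fin 4, x (Sum.inr (Sum.inl p)) ≠ 0
      · rw [hRev]
        obtain ⟨u', m, q', h⟩ := normalise (fun i k => x (Sum.inl (i, k)))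
          (fun j i => x (Sum.inr (Sum.inl (j, i)))) (fun α => x (Sum.inr (Sum.inr α)))
          (fun j i => hx (j, i))
        rw [h, hT, zero_mul]
      · push Not at hx
        obtain ⟨p, hp⟩ := hx
        rw [Finset.prod_eq_zero (Finset.mem_univ p) hp, mul_zero]
    rcases mul_eq_zero.1 h1 with h | h
    · exact h
    · exfalso
      rw [Finset.prod_eq_zero_iff] at h
      obtain ⟨p, _, hp⟩ := h
      exact X_ne_zero _ hp
  apply hD
  intro W
  obtain ⟨q, hq⟩ := upper (e 4) (e 5) (e 6) he4 (W 4) (W 5) (W 6)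
  set h3 : ℕ → Polynomial ℂ := lay (e 2) (W 2) (lay (e 1) (W 1) (lay0 (W 0))) with hh3
  have hdeg : ∀ j, (h3 j).natDegree < 5 := by
    intro j
    have := natDegree_lay 2 (e 2) (W 2) _
      (natDegree_lay 1 (e 1) (W 1) _ (natDegree_lay0 (W 0))) j
    rw [hh3]; omega
  have hU : U e W 0 = outB (fun i k => (h3 i).coeff k)
      (fun j i => if (i : ℕ) < e 3 then W 3 j i else 0) q := by
    have h0 : U e W 0 = lay (e 6) (W 6) (lay (e 5) (W 5) (lay (e 4) (W 4) (lay (e 3) (W 3) h3))) 0 := rfl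
    rw [h0, hq]
    unfold outB
    refine congrArg (fun z => qf q z) ?_
    funext j
    refine congrArg (fun t : Polynomial ℂ => t ^ 2) ?_
    unfold lay
    rw [sum_range_fin he3]
    refine Finset.sum_congr rfl (fun i _ => ?_)
    rw [pl_coeff _ (hdeg _)]
    show _ = Polynomial.C (if (i : ℕ) < e 3 then W 3 j i else 0) * h3 i ^ 2
    by_cases hi : (i : ℕ) < e 3
    · rw [if_pos hi, if_pos hi]
    · rw [if_neg hi, if_neg hi, map_zero, zero_mul]
  have hfin := hRev (Sum.elim (fun p => (h3 p.1).coeff p.2)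
    (Sum.elim (fun p => if (p.2 : ℕ) < e 3 then W 3 p.1 p.2 else 0) q))
  simp only [Sum.elim_inl, Sum.elim_inr] at hfin
  rw [hR0, map_zero] at hfin
  rw [hU]
  exact hfin.symm

end Pool.Agent.H486N
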