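import Pool.Agent.H486_Neuro.Neg

set_option autoImplicit false

open MvPolynomial Finset

namespace Pool.Agent.H486N

/-! ### case (c): `d₄ ≤ 4`, `d₅ ≤ 4` -/

/-- generic output in case (c) -/
noncomputable def outC {R : Type} [CommRing R] (x : (Fin 4 × Fin 9) ⊕ ((Fin 4 × Fin 4) ⊕ Fin 10) → R) :
    Polynomial R :=
  let v : Fin 4 → Polynomial R := fun c =>
    (∑ j, Polynomial.C (x (Sum.inr (Sum.inl (c, j)))) * (pl (fun k => x (Sum.inl (j, k)))) ^ 2) ^ 2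
  let t : Fin 10 → Polynomial R := fun m => Polynomial.C (x (Sum.inr (Sum.inr m)))
  t 0 * (v 0) ^ 2 + t 1 * (v 1) ^ 2 + t 2 * (v 2) ^ 2 + t 3 * (v 3) ^ 2 +
    t 4 * (v 0 * v 1) + t 5 * (v 0 * v 2) + t 6 * (v 0 * v 3) + t 7 * (v 1 * v 2) +
    t 8 * (v 1 * v 3) + t 9 * (v 2 * v 3)

theorem map_outC {R S : Type} [CommRing R] [CommRing S] (f : R →+* S)
    (x : (Fin 4 × Fin 9) ⊕ ((Fin 4 × Fin 4) ⊕ Fin 10) → R) :
    (outC x).map f = outC (fun i => f (x i)) := by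
  unfold outC
  simp only [Polynomial.map_add, Polynomial.map_mul, Polynomial.map_pow, Polynomial.map_C,
    Polynomial.map_sum, map_pl]

theorem not_dense_c (e : Fin 8 → ℕ) (he4 : e 4 ≤ 4) (he5 : e 5 ≤ 4) : ¬ Dense e := by
  have hc : Fintype.card ((Fin 4 × Fin 9) ⊕ ((Fin 4 × Fin 4) ⊕ Fin 10)) < 65 := by
    simp
  refine not_dense hc (outC (fun i => X i)) e (fun W => ?_)
  set h4 : ℕ → Polynomial ℂ := lay (e 3) (W 3) (lay (e 2) (W 2) (lay (e 1) (W 1) (lay0 (W 0)))) with hh4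
  have hdeg : ∀ j, (h4 j).natDegree < 9 := by
    intro j
    have := natDegree_lay 4 (e 3) (W 3) _ (natDegree_lay 2 (e 2) (W 2) _
      (natDegree_lay 1 (e 1) (W 1) _ (natDegree_lay0 (W 0)))) j
    rw [hh4]; omega
  set w5 : ℕ → Fin 4 → ℂ := fun b c => if (c : ℕ) < e 5 then W 5 b c else 0 with hw5
  set w4 : Fin 4 → Fin 4 → ℂ := fun c j => if (j : ℕ) < e 4 then W 4 c j else 0 with hw4
  set T : Fin 10 → ℂ := ![∑ b ∈ Finset.range (e 6), W 6 0 b * w5 b 0 ^ 2,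
    ∑ b ∈ Finset.range (e 6), W 6 0 b * w5 b 1 ^ 2,
    ∑ b ∈ Finset.range (e 6), W 6 0 b * w5 b 2 ^ 2,
    ∑ b ∈ Finset.range (e 6), W 6 0 b * w5 b 3 ^ 2,
    ∑ b ∈ Finset.range (e 6), W 6 0 b * (2 * w5 b 0 * w5 b 1),
    ∑ b ∈ Finset.range (e 6), W 6 0 b * (2 * w5 b 0 * w5 b 2),
    ∑ b ∈ Finset.range (e 6), W 6 0 b * (2 * w5 b 0 * w5 b 3),
    ∑ b ∈ Finset.range (e 6), W 6 0 b * (2 * w5 b 1 * w5 b 2),
    ∑ b ∈ Finset.range (e 6), W 6 0 b * (2 * w5 b 1 * w5 b 3),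
    ∑ b ∈ Finset.range (e 6), W 6 0 b * (2 * w5 b 2 * w5 b 3)] with hT
  refine ⟨Sum.elim (fun p => (h4 p.1).coeff p.2) (Sum.elim (fun p => w4 p.1 p.2) T), ?_⟩
  rw [map_outC]
  simp only [eval_X]
  unfold outC
  simp only [Sum.elim_inl, Sum.elim_inr, pl_coeff _ (hdeg _)]
  set v : Fin 4 → Polynomial ℂ := fun c =>
    (∑ j, Polynomial.C (w4 c j) * (h4 j) ^ 2) ^ 2 with hv
  have hU : U e W 0 = ∑ b ∈ Finset.range (e 6), Polynomial.C (W 6 0 b) *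
      (∑ c, Polynomial.C (w5 b c) * v c) ^ 2 := by
    unfold U
    rw [← hh4]
    unfold lay
    refine Finset.sum_congr rfl (fun b _ => ?_)
    congr 2
    rw [sum_range_fin he5]
    refine Finset.sum_congr rfl (fun c _ => ?_)
    simp only [hw5, hv]
    split_ifs with hc'
    · congr 2
      rw [sum_range_fin he4]
      refine Finset.sum_congr rfl (fun j _ => ?_)
      simp only [hw4]
      split_ifs
      · rfl
      · simp
    · simp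
  rw [hU]
  have hterm : ∀ b, Polynomial.C (W 6 0 b) * (∑ c, Polynomial.C (w5 b c) * v c) ^ 2 =
      Polynomial.C (W 6 0 b * w5 b 0 ^ 2) * (v 0) ^ 2 + Polynomial.C (W 6 0 b * w5 b 1 ^ 2) * (v 1) ^ 2 +
      Polynomial.C (W 6 0 b * w5 b 2 ^ 2) * (v 2) ^ 2 + Polynomial.C (W 6 0 b * w5 b 3 ^ 2) * (v 3) ^ 2 +
      Polynomial.C (W 6 0 b * (2 * w5 b 0 * w5 b 1)) * (v 0 * v 1) +
      Polynomial.C (W 6 0 b * (2 * w5 b 0 * w5 b 2)) * (v 0 * v 2) +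
      Polynomial.C (W 6 0 b * (2 * w5 b 0 * w5 b 3)) * (v 0 * v 3) +
      Polynomial.C (W 6 0 b * (2 * w5 b 1 * w5 b 2)) * (v 1 * v 2) +
      Polynomial.C (W 6 0 b * (2 * w5 b 1 * w5 b 3)) * (v 1 * v 3) +
      Polynomial.C (W 6 0 b * (2 * w5 b 2 * w5 b 3)) * (v 2 * v 3) := by
    intro b
    rw [Fin.sum_univ_four]
    simp only [map_mul, map_pow]
    have h2 : (Polynomial.C (2 : ℂ)) = 2 := map_ofNat Polynomial.C 2
    rw [h2]
    ring
  rw [Finset.sum_congr rfl (fun b _ => hterm b)]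
  simp only [Finset.sum_add_distrib, ← Finset.sum_mul, ← map_sum]
  rfl

end Pool.Agent.H486N
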