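import Pool.Agent.H486_Neuro.Dep

set_option autoImplicit false

open MvPolynomial Finset

namespace Pool.Agent.H486N

/-- The network of the frozen statement, for depth 7 and activation degree 2. -/
noncomputable def net (e : Fin 8 → ℕ) (W : Fin 7 → ℕ → ℕ → ℂ) : ℕ → MvPolynomial ℕ ℂ :=
  (List.finRange 7).foldl
    (fun (h : ℕ → MvPolynomial ℕ ℂ) (k : Fin 7) (a : ℕ) =>
      ∑ b ∈ Finset.range (e k.castSucc),
        MvPolynomial.C (W k a b) * h b ^ (if (k : ℕ) = 0 then 1 else 2))
    (fun b : ℕ => (MvPolynomial.X b : MvPolynomial ℕ ℂ))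

/-- The filling predicate of the frozen statement, for depth 7 and activation degree 2. -/
def Fil (e : Fin 8 → ℕ) : Prop :=
  ∀ P : MvPolynomial (ℕ × (ℕ →₀ ℕ)) ℂ,
    (∀ W : Fin 7 → ℕ → ℕ → ℂ,
      MvPolynomial.eval (fun p : ℕ × (ℕ →₀ ℕ) => MvPolynomial.coeff p.2 (net e W p.1)) P = 0) →
    ∀ c : ℕ × (ℕ →₀ ℕ) → ℂ,
      (∀ p : ℕ × (ℕ →₀ ℕ), c p ≠ 0 →
        p.1 < e (Fin.last 7) ∧ (∑ b ∈ p.2.support, p.2 b) = 2 ^ (7 - 1) ∧
          ∀ b ∈ p.2.support, b < e 0) →
      MvPolynomial.eval c P = 0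

/-- one layer (multivariate) -/
noncomputable def mlay (n : ℕ) (w : ℕ → ℕ → ℂ) (h : ℕ → MvPolynomial ℕ ℂ) : ℕ → MvPolynomial ℕ ℂ :=
  fun a => ∑ b ∈ Finset.range n, MvPolynomial.C (w a b) * h b ^ 2

/-- first layer (multivariate) -/
noncomputable def mlay0 (n : ℕ) (w : ℕ → ℕ → ℂ) : ℕ → MvPolynomial ℕ ℂ :=
  fun a => ∑ b ∈ Finset.range n, MvPolynomial.C (w a b) * (X b : MvPolynomial ℕ ℂ) ^ 1

theorem net_eq (e : Fin 8 → ℕ) (W : Fin 7 → ℕ → ℕ → ℂ) :
    net e W = mlay (e 6) (W 6) (mlay (e 5) (W 5) (mlay (e 4) (W 4) (mlay (e 3) (W 3)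
      (mlay (e 2) (W 2) (mlay (e 1) (W 1) (mlay0 (e 0) (W 0))))))) := by
  have hl : List.finRange 7 = [0, 1, 2, 3, 4, 5, 6] := by decide
  unfold net
  rw [hl]
  simp only [List.foldl_cons, List.foldl_nil]
  rfl

/-- one layer (univariate) -/
noncomputable def lay (n : ℕ) (w : ℕ → ℕ → ℂ) (h : ℕ → Polynomial ℂ) : ℕ → Polynomial ℂ :=
  fun a => ∑ b ∈ Finset.range n, Polynomial.C (w a b) * h b ^ 2

/-- first layer (univariate) -/
noncomputable def lay0 (w : ℕ → ℕ → ℂ) : ℕ → Polynomial ℂ :=
  fun a => Polynomial.C (w a 0) + Polynomial.C (w a 1) * Polynomial.X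

/-- the dehomogenised network -/
noncomputable def U (e : Fin 8 → ℕ) (W : Fin 7 → ℕ → ℕ → ℂ) : ℕ → Polynomial ℂ :=
  lay (e 6) (W 6) (lay (e 5) (W 5) (lay (e 4) (W 4) (lay (e 3) (W 3)
      (lay (e 2) (W 2) (lay (e 1) (W 1) (lay0 (W 0)))))))

/-- dehomogenisation -/
noncomputable def phi : MvPolynomial ℕ ℂ →ₐ[ℂ] Polynomial ℂ :=
  aeval (fun n : ℕ => if n = 0 then 1 else if n = 1 then Polynomial.X else 0)

theorem phi_C (c : ℂ) : phi (C c) = Polynomial.C c := by
  rw [phi, MvPolynomial.aeval_C]; rfl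

theorem phi_mlay (n : ℕ) (w : ℕ → ℕ → ℂ) (h : ℕ → MvPolynomial ℕ ℂ) (g : ℕ → Polynomial ℂ)
    (hg : ∀ b, phi (h b) = g b) (a : ℕ) : phi (mlay n w h a) = lay n w g a := by
  simp only [mlay, lay, map_sum, map_mul, map_pow, phi_C, hg]

theorem phi_mlay0 (w : ℕ → ℕ → ℂ) (a : ℕ) : phi (mlay0 2 w a) = lay0 w a := by
  simp only [mlay0, lay0, map_sum, map_mul, map_pow, phi_C, Finset.sum_range_succ,
    Finset.sum_range_zero, pow_one]
  simp [phi]

theorem phi_net (e : Fin 8 → ℕ) (he : e 0 = 2) (W : Fin 7 → ℕ → ℕ → ℂ) (a : ℕ) :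
    phi (net e W a) = U e W a := by
  rw [net_eq, he]
  unfold U
  refine phi_mlay _ _ _ _ (fun b => ?_) a
  refine phi_mlay _ _ _ _ (fun b => ?_) b
  refine phi_mlay _ _ _ _ (fun b => ?_) b
  refine phi_mlay _ _ _ _ (fun b => ?_) b
  refine phi_mlay _ _ _ _ (fun b => ?_) b
  refine phi_mlay _ _ _ _ (fun b => ?_) b
  exact phi_mlay0 _ b

/-- homogeneous and only in `X 0`, `X 1` -/
def Good (D : ℕ) (f : MvPolynomial ℕ ℂ) : Prop :=
  f.IsHomogeneous D ∧ f ∈ supported ℂ ({0, 1} : Set ℕ)

theorem good_mlay (D n : ℕ) (w : ℕ → ℕ → ℂ) (h : ℕ → MvPolynomial ℕ ℂ)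
    (hh : ∀ b, Good D (h b)) (a : ℕ) : Good (2 * D) (mlay n w h a) := by
  constructor
  · apply MvPolynomial.IsHomogeneous.sum
    intro b _
    have h1 := ((hh b).1.pow 2)
    have h2 := (isHomogeneous_C ℕ (w a b)).mul h1
    rwa [show 0 + D * 2 = 2 * D by ring] at h2
  · apply Subalgebra.sum_mem
    intro b _
    exact Subalgebra.mul_mem _ (Subalgebra.algebraMap_mem _ _) (Subalgebra.pow_mem _ (hh b).2 2)

theorem good_mlay0 (w : ℕ → ℕ → ℂ) (a : ℕ) : Good 1 (mlay0 2 w a) := by
  constructor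
  · apply MvPolynomial.IsHomogeneous.sum
    intro b _
    have h1 := ((isHomogeneous_X ℂ b).pow 1)
    have h2 := (isHomogeneous_C ℕ (w a b)).mul h1
    rwa [zero_add, mul_one] at h2
  · apply Subalgebra.sum_mem
    intro b hb
    refine Subalgebra.mul_mem _ (Subalgebra.algebraMap_mem _ _) (Subalgebra.pow_mem _ ?_ 1)
    apply X_mem_supported.2
    have := Finset.mem_range.1 hb
    interval_cases b <;> simp

theorem good_net (e : Fin 8 → ℕ) (he : e 0 = 2) (W : Fin 7 → ℕ → ℕ → ℂ) (a : ℕ) :
    Good 64 (net e W a) := by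
  rw [net_eq, he]
  refine good_mlay 32 _ _ _ (fun b => ?_) a
  refine good_mlay 16 _ _ _ (fun b => ?_) b
  refine good_mlay 8 _ _ _ (fun b => ?_) b
  refine good_mlay 4 _ _ _ (fun b => ?_) b
  refine good_mlay 2 _ _ _ (fun b => ?_) b
  refine good_mlay 1 _ _ _ (fun b => ?_) b
  exact good_mlay0 _ b

/-- exponent vector -/
noncomputable def ex (i : ℕ) : ℕ →₀ ℕ := Finsupp.single 0 (64 - i) + Finsupp.single 1 i

theorem ex_zero (i : ℕ) : ex i 0 = 64 - i := by simp [ex]

theorem ex_one (i : ℕ) : ex i 1 = i := by simp [ex]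

theorem ex_inj {i j : ℕ} (h : ex i = ex j) : i = j := by
  rw [← ex_one i, h, ex_one]

/-- the exponents of a good polynomial -/
theorem good_exp {f : MvPolynomial ℕ ℂ} (hf : Good 64 f) {d : ℕ →₀ ℕ} (hd : coeff d f ≠ 0) :
    d 1 ≤ 64 ∧ d = ex (d 1) := by
  have h1 : d.degree = 64 := by
    have := hf.1 hd
    rw [Finsupp.degree_eq_weight_one]
    exact this
  have h2 : ∀ n, n ∉ ({0, 1} : Set ℕ) → d n = 0 := by
    intro n hn
    by_contra hne
    apply hn
    have hv := (mem_supported.1 hf.2)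
    apply hv
    rw [Finset.mem_coe, mem_vars_iff_mem_support]
    exact ⟨d, mem_support_iff.2 hd, Finsupp.mem_support_iff.2 hne⟩
  have hd' : d = Finsupp.single 0 (d 0) + Finsupp.single 1 (d 1) := by
    ext n
    by_cases h0 : n = 0
    · subst h0; simp
    by_cases h1' : n = 1
    · subst h1'; simp
    · rw [h2 n (by simp [h0, h1'])]
      simp [Finsupp.single_apply, Ne.symm h0, Ne.symm h1']
  have hs : d 0 + d 1 = 64 := by
    have h3 := h1
    rw [hd', map_add, Finsupp.degree_single, Finsupp.degree_single] at h3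
    simpa using h3
  refine ⟨by omega, ?_⟩
  conv_lhs => rw [hd']
  rw [ex, show 64 - d 1 = d 0 by omega]

theorem coeff_phi {f : MvPolynomial ℕ ℂ} (hf : Good 64 f) (i : ℕ) (hi : i ≤ 64) :
    (phi f).coeff i = coeff (ex i) f := by
  rw [phi, aeval_def, eval₂_eq, Polynomial.finsetSum_coeff]
  have key : ∀ d ∈ f.support, (((algebraMap ℂ (Polynomial ℂ)) (coeff d f)) *
      ∏ n ∈ d.support, (if n = 0 then (1 : Polynomial ℂ) else if n = 1 then Polynomial.X else 0) ^ d n).coeff i
      = if d = ex i then coeff d f else 0 := by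
    intro d hd
    have hd' := good_exp hf (mem_support_iff.1 hd)
    have hprod : ∏ n ∈ d.support, (if n = 0 then (1 : Polynomial ℂ) else if n = 1 then Polynomial.X else 0) ^ d n
        = Polynomial.X ^ (d 1) := by
      have hsub : d.support ⊆ ({0, 1} : Finset ℕ) := by
        intro n hn
        rw [hd'.2] at hn
        by_contra hc
        simp only [Finset.mem_insert, Finset.mem_singleton, not_or] at hc
        apply Finsupp.mem_support_iff.1 hn
        simp [ex, Finsupp.single_apply, Ne.symm hc.1, Ne.symm hc.2]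
      rw [Finset.prod_subset hsub]
      · rw [Finset.prod_pair (by norm_num)]
        simp
      · intro n _ hn
        rw [Finsupp.notMem_support_iff.1 hn, pow_zero]
    rw [hprod, Polynomial.algebraMap_apply, Polynomial.coeff_C_mul, Polynomial.coeff_X_pow]
    by_cases h : d = ex i
    · rw [if_pos h, h, ex_one]; simp
    · rw [if_neg h, if_neg, mul_zero]
      intro h'
      apply h
      rw [hd'.2, ← h']
  rw [Finset.sum_congr rfl key, Finset.sum_ite_eq']
  by_cases h : ex i ∈ f.support
  · rw [if_pos h]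
  · rw [if_neg h, notMem_support_iff.1 h]

/-- Zariski density of the dehomogenised network in the polynomials of degree at most 64 -/
def Dense (e : Fin 8 → ℕ) : Prop :=
  ∀ P : MvPolynomial (Fin 65) ℂ,
    (∀ W : Fin 7 → ℕ → ℕ → ℂ, eval (fun i : Fin 65 => (U e W 0).coeff (i : ℕ)) P = 0) → P = 0

/-- the index map -/
noncomputable def io (i : Fin 65) : ℕ × (ℕ →₀ ℕ) := (0, ex i)

theorem io_inj : Function.Injective io := by
  intro i j h
  have := congrArg Prod.snd h
  exact Fin.ext (ex_inj this)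

theorem dense_of_fil (e : Fin 8 → ℕ) (he : e 0 = 2) (he7 : e 7 = 1) (h : Fil e) : Dense e := by
  intro P hP
  apply MvPolynomial.funext
  intro v
  rw [map_zero]
  have h1 := h (rename io P) ?_ (Function.extend io v 0) ?_
  · rw [eval_rename] at h1
    rwa [show (Function.extend io v 0 ∘ io) = v from Function.extend_comp io_inj v 0] at h1
  · intro W
    rw [eval_rename]
    rw [← hP W]
    congr 2
    funext i
    show coeff (io i).2 (net e W (io i).1) = _
    rw [← phi_net e he W 0, coeff_phi (good_net e he W 0) _ (by omega)]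
    rfl
  · intro p hp
    by_cases hr : ∃ i, io i = p
    · obtain ⟨i, rfl⟩ := hr
      refine ⟨?_, ?_, ?_⟩
      · show 0 < e (Fin.last 7)
        have : (Fin.last 7) = (7 : Fin 8) := rfl
        rw [this, he7]; norm_num
      · show ∑ b ∈ (ex i).support, (ex i) b = 2 ^ (7 - 1)
        have : (ex (i : ℕ)).degree = 64 := by
          rw [ex, map_add, Finsupp.degree_single, Finsupp.degree_single]
          have := i.2
          omega
        rw [Finsupp.degree_apply] at this
        rw [this]; norm_num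
      · intro b hb
        rw [he]
        by_contra hc
        apply Finsupp.mem_support_iff.1 hb
        show (ex i) b = 0
        simp [ex, Finsupp.single_apply, show ¬ (0 = b) by omega, show ¬ (1 = b) by omega]
    · exact absurd (Function.extend_apply' v (0 : ℕ × (ℕ →₀ ℕ) → ℂ) p hr) hp

theorem fil_of_dense (e : Fin 8 → ℕ) (he : e 0 = 2) (he7 : e 7 = 1) (h : Dense e) : Fil e := by
  classical
  intro P hP c hc
  -- transport `P` to 65 variables
  set P' : MvPolynomial (Fin 65) ℂ :=
    aeval (fun p : ℕ × (ℕ →₀ ℕ) => Function.extend io (fun i => (X i : MvPolynomial (Fin 65) ℂ))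
      (fun _ => (0 : MvPolynomial (Fin 65) ℂ)) p) P
    with hP'
  have hev : ∀ v : Fin 65 → ℂ, eval v P' = eval (Function.extend io v 0) P := by
    intro v
    rw [hP', ← MvPolynomial.coe_aeval_eq_eval, ← MvPolynomial.coe_aeval_eq_eval]
    rw [RingHom.coe_coe, RingHom.coe_coe, ← AlgHom.comp_apply, MvPolynomial.comp_aeval]
    congr 2
    funext p
    by_cases hr : ∃ i, io i = p
    · obtain ⟨i, rfl⟩ := hr
      simp only [io_inj.extend_apply]
      rw [MvPolynomial.aeval_X]
    · simp only [Function.extend_apply' _ _ _ hr, Pi.zero_apply, map_zero]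
  have h0 : P' = 0 := by
    apply h
    intro W
    rw [hev]
    -- modified weights
    set W' : Fin 7 → ℕ → ℕ → ℂ := fun k a b => if k = 6 ∧ a ≠ 0 then 0 else W k a b with hW'
    have hne : ∀ k : Fin 7, k ≠ 6 → W' k = W k := by
      intro k hk; funext a b; simp [hW', hk]
    have hU : U e W' 0 = U e W 0 := by
      unfold U
      rw [hne 0 (by decide), hne 1 (by decide), hne 2 (by decide), hne 3 (by decide),
        hne 4 (by decide), hne 5 (by decide)]
      simp [lay, hW']
    have hn : ∀ a, a ≠ 0 → net e W' a = 0 := by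
      intro a ha
      rw [net_eq]
      simp [mlay, hW', ha]
    rw [← hP W']
    congr 2
    funext p
    by_cases hr : ∃ i, io i = p
    · obtain ⟨i, rfl⟩ := hr
      rw [io_inj.extend_apply, ← hU, ← phi_net e he W' 0, coeff_phi (good_net e he W' 0) _ (by omega)]
      rfl
    · rw [Function.extend_apply' _ _ _ hr, Pi.zero_apply]
      by_cases hp : p.1 = 0
      · by_contra hcon
        rw [hp] at hcon
        obtain ⟨h1, h2⟩ := good_exp (good_net e he W' 0) (Ne.symm hcon)
        apply hr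
        refine ⟨⟨p.2 1, by omega⟩, ?_⟩
        apply Prod.ext
        · exact hp.symm
        · exact h2.symm
      · rw [hn _ hp, coeff_zero]
  have hcv : c = Function.extend io (fun i => c (io i)) 0 := by
    funext p
    by_cases hr : ∃ i, io i = p
    · obtain ⟨i, rfl⟩ := hr
      rw [io_inj.extend_apply]
    · rw [Function.extend_apply' _ _ _ hr, Pi.zero_apply]
      by_contra hcon
      obtain ⟨h1, h2, h3⟩ := hc p hcon
      have h1' : p.1 = 0 := by
        have : e (Fin.last 7) = 1 := he7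
        omega
      have hsub : p.2.support ⊆ ({0, 1} : Finset ℕ) := by
        intro b hb
        have := h3 b hb
        rw [he] at this
        interval_cases b <;> simp
      have hd' : p.2 = Finsupp.single 0 (p.2 0) + Finsupp.single 1 (p.2 1) := by
        ext n
        by_cases h0 : n = 0
        · subst h0; simp
        by_cases h1' : n = 1
        · subst h1'; simp
        · have : p.2 n = 0 := by
            by_contra hne
            have := hsub (Finsupp.mem_support_iff.2 hne)
            simp [h0, h1'] at this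
          rw [this]
          simp [Finsupp.single_apply, Ne.symm h0, Ne.symm h1']
      have hs : p.2 0 + p.2 1 = 64 := by
        rw [Finset.sum_subset hsub (by intro n _ hn; exact Finsupp.notMem_support_iff.1 hn),
          Finset.sum_pair (by norm_num)] at h2
        simpa using h2
      apply hr
      refine ⟨⟨p.2 1, by omega⟩, ?_⟩
      apply Prod.ext
      · exact h1'.symm
      · show ex (p.2 1) = p.2
        conv_rhs => rw [hd']
        rw [ex, show 64 - p.2 1 = p.2 0 by omega]
  rw [hcv, ← hev, h0, map_zero]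

end Pool.Agent.H486N
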