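import Pool.Agent.H486_Neuro.Rep
import Pool.Agent.H486_Neuro.CertZ

set_option autoImplicit false

open Polynomial Finset

namespace Pool.Agent.H486N

/-- parameter space -/
abbrev EE : Type := (A4 → ℂ) × (Fin 4 → Fin 9 → ℂ)

/-- the output polynomial -/
noncomputable def GP (x : EE) : Polynomial ℂ := qf x.1 (fun j => (pl (x.2 j)) ^ 2)

/-- values of the output polynomial at 65 points -/
noncomputable def ft (x : EE) : Fin 65 → ℂ := fun i => (GP x).eval ((i : ℕ) : ℂ)

theorem ft_eq (x : EE) (i : Fin 65) : ft x i =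
    ∑ α : A4, x.1 α * ∏ j, ((∑ k, x.2 j k * ((i : ℕ) : ℂ) ^ (k : ℕ)) ^ 2) ^ (α.1 j : ℕ) := by
  unfold ft GP qf pl
  simp only [eval_finsetSum, eval_mul, eval_C, eval_prod, eval_pow, eval_X]

theorem ft_contDiff : ContDiff ℂ 1 ft := by
  rw [contDiff_pi]
  intro i
  simp only [ft_eq]
  apply ContDiff.sum
  intro α _
  apply ContDiff.mul
  · exact (contDiff_apply ℂ ℂ α).comp contDiff_fst
  · apply contDiff_prod
    intro j _
    apply ContDiff.pow
    apply ContDiff.pow
    apply ContDiff.sum
    intro k _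
    apply ContDiff.mul
    · exact ((contDiff_apply_apply ℂ ℂ j k).comp contDiff_snd)
    · exact contDiff_const

/-- evaluation at the 65 points -/
noncomputable def evL : Polynomial ℂ →ₗ[ℂ] (Fin 65 → ℂ) :=
  LinearMap.pi (fun i => Polynomial.leval ((i : ℕ) : ℂ))

theorem evL_apply (p : Polynomial ℂ) (i : Fin 65) : evL p i = p.eval ((i : ℕ) : ℂ) := rfl

/-- the exponent of `z₀z₁z₂z₃` -/
def a1 : A4 := ⟨fun _ => 1, by decide⟩

/-- the base point -/
noncomputable def pt : EE := (Pi.single a1 1, fun j k => (((yz j).coeff (k : ℕ) : ℤ) : ℂ))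

/-- the complexified octics -/
noncomputable def yC (j : Fin 4) : Polynomial ℂ := (yz j).map (Int.castRingHom ℂ)

theorem pl_pt (j : Fin 4) : pl (pt.2 j) = yC j := by
  have h := pl_coeff (n := 9) (yC j) (by
    have := yz_deg j
    have h2 : (yC j).natDegree ≤ (yz j).natDegree := natDegree_map_le
    omega)
  rw [← h]
  unfold pl
  refine Finset.sum_congr rfl (fun k _ => ?_)
  congr 2
  show (((yz j).coeff (k : ℕ) : ℤ) : ℂ) = ((yz j).map (Int.castRingHom ℂ)).coeff (k : ℕ)
  rw [coeff_map]
  rfl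

theorem qf_single (α : A4) (z : Fin 4 → Polynomial ℂ) :
    qf (Pi.single α (1 : ℂ)) z = ∏ j, z j ^ (α.1 j : ℕ) := by
  unfold qf
  rw [Finset.sum_eq_single α]
  · rw [Pi.single_eq_same, C_1, one_mul]
  · intro β _ hβ
    rw [Pi.single_eq_of_ne hβ, C_0, zero_mul]
  · intro h; exact absurd (Finset.mem_univ α) h

theorem qf_add (q q' : A4 → ℂ) (t : ℂ) (z : Fin 4 → Polynomial ℂ) :
    qf (q + t • q') z = qf q z + C t * qf q' z := by
  unfold qf
  rw [Finset.mul_sum, ← Finset.sum_add_distrib]
  refine Finset.sum_congr rfl (fun α _ => ?_)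
  rw [Pi.add_apply, Pi.smul_apply, smul_eq_mul, C_add, C_mul]
  ring

theorem dir_deriv (h : EE) (v : Fin 65 → ℂ)
    (hd : HasDerivAt (fun t : ℂ => ft (pt + t • h)) v 0) :
    (fderiv ℂ ft pt) h = v := by
  have h1 : HasFDerivAt ft (fderiv ℂ ft pt) pt :=
    (ft_contDiff.differentiable (by norm_num)).differentiableAt.hasFDerivAt
  have h2 : HasDerivAt (fun t : ℂ => pt + t • h) h 0 := by
    have := ((hasDerivAt_id (0 : ℂ)).smul_const h).const_add pt
    simpa using this
  have h3 : HasFDerivAt ft (fderiv ℂ ft pt) (pt + (0 : ℂ) • h) := by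
    rw [zero_smul, add_zero]; exact h1
  have h4 := h3.comp_hasDerivAt (0 : ℂ) h2
  exact h4.unique hd

theorem row_A (α : A4) : evL (∏ j, (yC j ^ 2) ^ (α.1 j : ℕ)) ∈ LinearMap.range (fderiv ℂ ft pt).toLinearMap := by
  refine ⟨(Pi.single α 1, 0), ?_⟩
  apply dir_deriv
  rw [hasDerivAt_pi]
  intro i
  have h1 : ∀ t : ℂ, ft (pt + t • ((Pi.single α 1, 0) : EE)) i =
      ft pt i + t * evL (∏ j, (yC j ^ 2) ^ (α.1 j : ℕ)) i := by
    intro t
    unfold ft GP
    have h2 : (pt + t • ((Pi.single α 1, 0) : EE)).1 = pt.1 + t • Pi.single α 1 := rfl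
    have h3 : (pt + t • ((Pi.single α 1, 0) : EE)).2 = pt.2 := by
      show pt.2 + t • (0 : Fin 4 → Fin 9 → ℂ) = pt.2
      rw [smul_zero, add_zero]
    rw [h2, h3, qf_add, qf_single, eval_add, eval_mul, eval_C, evL_apply]
    simp only [pl_pt]
  simp only [h1]
  have h2 := ((hasDerivAt_id (0 : ℂ)).mul_const
    (evL (∏ j, (yC j ^ 2) ^ (α.1 j : ℕ)) i)).const_add (ft pt i)
  simpa using h2

theorem row_B (j : Fin 4) (k : Fin 9) :
    evL ((∏ l, yC l) * (∏ l ∈ Finset.univ.erase j, yC l) * X ^ (k : ℕ)) ∈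
      LinearMap.range (fderiv ℂ ft pt).toLinearMap := by
  have key : evL ((2 : ℂ) • ((∏ l, yC l) * (∏ l ∈ Finset.univ.erase j, yC l) * X ^ (k : ℕ))) ∈
      LinearMap.range (fderiv ℂ ft pt).toLinearMap := by
    refine ⟨(0, Pi.single j (Pi.single k 1)), ?_⟩
    apply dir_deriv
    rw [hasDerivAt_pi]
    intro i
    set τ : ℂ := ((i : ℕ) : ℂ) with hτ
    set c : ℂ := ∏ l ∈ Finset.univ.erase j, (yC l).eval τ with hc
    have h1 : ∀ t : ℂ, ft (pt + t • ((0, Pi.single j (Pi.single k 1)) : EE)) i =
        c ^ 2 * ((yC j).eval τ + t * τ ^ (k : ℕ)) ^ 2 := by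
      intro t
      unfold ft GP
      have h2 : (pt + t • ((0, Pi.single j (Pi.single k 1)) : EE)).1 = Pi.single a1 1 := by
        show Pi.single a1 1 + t • (0 : A4 → ℂ) = _
        rw [smul_zero, add_zero]
      have h3 : ∀ l, pl ((pt + t • ((0, Pi.single j (Pi.single k 1)) : EE)).2 l) =
          yC l + C t * (if l = j then X ^ (k : ℕ) else 0) := by
        intro l
        have h4 : (pt + t • ((0, Pi.single j (Pi.single k 1)) : EE)).2 l =
            pt.2 l + t • (Pi.single j (Pi.single k (1 : ℂ)) : Fin 4 → Fin 9 → ℂ) l := rfl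
        rw [h4, ← pl_pt]
        have h5 : ∀ (y y' : Fin 9 → ℂ), pl (y + t • y') = pl y + C t * pl y' := by
          intro y y'
          unfold pl
          rw [Finset.mul_sum, ← Finset.sum_add_distrib]
          refine Finset.sum_congr rfl (fun m _ => ?_)
          rw [Pi.add_apply, Pi.smul_apply, smul_eq_mul, C_add, C_mul]
          ring
        rw [h5]
        congr 2
        split_ifs with hl
        · subst hl
          rw [Pi.single_eq_same]
          unfold pl
          rw [Finset.sum_eq_single k]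
          · rw [Pi.single_eq_same, C_1, one_mul]
          · intro m _ hm
            rw [Pi.single_eq_of_ne hm, C_0, zero_mul]
          · intro h; exact absurd (Finset.mem_univ k) h
        · rw [Pi.single_eq_of_ne hl]
          unfold pl
          simp
      rw [h2, qf_single]
      simp only [h3]
      rw [← hτ, ← Finset.mul_prod_erase Finset.univ _ (Finset.mem_univ j)]
      simp only [eval_mul, eval_prod, eval_pow, eval_add, eval_C, if_true]
      have h6 : ∀ l ∈ Finset.univ.erase j, ((eval τ (yC l) + t * eval τ (if l = j then X ^ (k : ℕ) else 0)) ^ 2) ^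
          (a1.1 l : ℕ) = (eval τ (yC l)) ^ 2 := by
        intro l hl
        rw [if_neg (Finset.ne_of_mem_erase hl), eval_zero, mul_zero, add_zero]
        exact pow_one _
      rw [Finset.prod_congr rfl h6, Finset.prod_pow, ← hc]
      have h7 : (a1.1 j : ℕ) = 1 := rfl
      rw [h7, pow_one, eval_X]
      ring
    simp only [h1]
    have h2 : HasDerivAt (fun t : ℂ => c ^ 2 * ((yC j).eval τ + t * τ ^ (k : ℕ)) ^ 2)
        (c ^ 2 * (2 * ((yC j).eval τ) * τ ^ (k : ℕ))) 0 := by
      have h3 : HasDerivAt (fun t : ℂ => (yC j).eval τ + t * τ ^ (k : ℕ)) (τ ^ (k : ℕ)) 0 := by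
        have := ((hasDerivAt_id (0 : ℂ)).mul_const (τ ^ (k : ℕ))).const_add ((yC j).eval τ)
        simpa using this
      have h4 := (h3.fun_pow 2).const_mul (c ^ 2)
      refine h4.congr_deriv ?_
      simp only [zero_mul, add_zero, Nat.cast_ofNat, Nat.add_one_sub_one, pow_one]
    refine h2.congr_deriv ?_
    rw [evL_apply, ← hτ]
    rw [← Finset.mul_prod_erase Finset.univ _ (Finset.mem_univ j)]
    simp only [smul_eq_C_mul, eval_mul, eval_C, eval_prod, eval_pow, eval_X]
    rw [← hc]
    ring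
  have h2 := Submodule.smul_mem _ (1 / 2 : ℂ) key
  rw [← map_smul, smul_smul, show (1 / 2 * 2 : ℂ) = 1 by norm_num, one_smul] at h2
  exact h2

theorem range_top : LinearMap.range (fderiv ℂ ft pt).toLinearMap = ⊤ := by
  rw [eq_top_iff]
  intro v _
  set V : Submodule ℂ (Polynomial ℂ) := (LinearMap.range (fderiv ℂ ft pt).toLinearMap).comap evL with hV
  have hall := span_all V (by
    rintro p (⟨α, rfl⟩ | ⟨j, k, rfl⟩)
    · show evL _ ∈ LinearMap.range (fderiv ℂ ft pt).toLinearMap
      have h1 : (∏ j, (yz j ^ 2) ^ (α.1 j : ℕ)).map (Int.castRingHom ℂ) =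
          ∏ j, (yC j ^ 2) ^ (α.1 j : ℕ) := by
        simp only [Polynomial.map_prod, Polynomial.map_pow, yC]
      rw [h1]
      exact row_A α
    · show evL _ ∈ LinearMap.range (fderiv ℂ ft pt).toLinearMap
      have h1 : ((∏ l, yz l) * (∏ l ∈ Finset.univ.erase j, yz l) * X ^ (k : ℕ)).map (Int.castRingHom ℂ) =
          (∏ l, yC l) * (∏ l ∈ Finset.univ.erase j, yC l) * X ^ (k : ℕ) := by
        simp only [Polynomial.map_mul, Polynomial.map_prod, Polynomial.map_pow, Polynomial.map_X, yC]
      rw [h1]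
      exact row_B j k)
  -- interpolation
  have hinj : Set.InjOn (fun i : Fin 65 => ((i : ℕ) : ℂ)) (Finset.univ : Finset (Fin 65)) := by
    intro i _ j _ h
    apply Fin.ext
    have h' : ((i : ℕ) : ℂ) = ((j : ℕ) : ℂ) := h
    exact_mod_cast h'
  set p := Lagrange.interpolate Finset.univ (fun i : Fin 65 => ((i : ℕ) : ℂ)) v with hp
  have hdeg : p.natDegree ≤ 64 := by
    have h1 : p.degree < (Finset.univ : Finset (Fin 65)).card := Lagrange.degree_interpolate_lt v hinj
    rw [Finset.card_univ, Fintype.card_fin] at h1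
    by_contra hcon
    push Not at hcon
    have hne : p ≠ 0 := by intro h; rw [h] at hcon; simp at hcon
    rw [degree_eq_natDegree hne] at h1
    have : p.natDegree < 65 := by exact_mod_cast h1
    omega
  have h2 := hall p hdeg
  have h3 : evL p = v := by
    funext i
    rw [evL_apply]
    exact Lagrange.eval_interpolate_at_node v hinj (Finset.mem_univ i)
  have h4 : evL p ∈ LinearMap.range (fderiv ℂ ft pt).toLinearMap := h2
  rwa [h3] at h4

theorem dense_e0 : Dense e0 := by
  intro P hP
  -- vanishing on all outputs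
  have h1 : ∀ x : EE, MvPolynomial.eval (fun i : Fin 65 => (GP x).coeff (i : ℕ)) P = 0 := by
    intro x
    obtain ⟨W, hW⟩ := rep (fun j => if h : j < 4 then pl (x.2 ⟨j, h⟩) else 0) (by
      intro j
      split_ifs
      · unfold pl
        apply natDegree_sum_le_of_forall_le
        intro k _
        refine (natDegree_C_mul_le _ _).trans ((natDegree_X_pow_le _).trans ?_)
        omega
      · simp) x.1
    have h2 : GP x = U e0 W 0 := by
      rw [hW]
      unfold GP
      refine congrArg (fun z => qf x.1 z) ?_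
      funext j
      rw [dif_pos j.2]
    rw [h2]
    exact hP W
  -- the Vandermonde map
  set Λ : Matrix (Fin 65) (Fin 65) ℂ := Matrix.vandermonde (fun i : Fin 65 => ((i : ℕ) : ℂ)) with hΛ
  have hdet : IsUnit Λ.det := by
    rw [isUnit_iff_ne_zero, hΛ, Matrix.det_vandermonde_ne_zero_iff]
    intro i j h
    apply Fin.ext
    have h' : ((i : ℕ) : ℂ) = ((j : ℕ) : ℂ) := h
    exact_mod_cast h'
  have hGdeg : ∀ x : EE, (GP x).natDegree < 65 := by
    intro x
    have : (GP x).natDegree ≤ 64 := by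
      unfold GP qf
      apply natDegree_sum_le_of_forall_le
      intro α _
      refine (natDegree_C_mul_le _ _).trans ((natDegree_prod_le _ _).trans ?_)
      have h2 : ∀ j, ((pl (x.2 j) ^ 2) ^ (α.1 j : ℕ)).natDegree ≤ 16 * (α.1 j : ℕ) := by
        intro j
        refine natDegree_pow_le.trans ?_
        have h3 : (pl (x.2 j) ^ 2).natDegree ≤ 16 := by
          refine natDegree_pow_le.trans ?_
          have h4 : (pl (x.2 j)).natDegree ≤ 8 := by
            unfold pl
            apply natDegree_sum_le_of_forall_le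
            intro k _
            refine (natDegree_C_mul_le _ _).trans ((natDegree_X_pow_le _).trans ?_)
            omega
          omega
        calc (α.1 j : ℕ) * (pl (x.2 j) ^ 2).natDegree ≤ (α.1 j : ℕ) * 16 := Nat.mul_le_mul_left _ h3
          _ = 16 * (α.1 j : ℕ) := mul_comm _ _
      refine (Finset.sum_le_sum (fun j _ => h2 j)).trans ?_
      rw [← Finset.mul_sum, α.2]
      norm_num
    omega
  have hft : ∀ x : EE, ft x = Λ.mulVec (fun i : Fin 65 => (GP x).coeff (i : ℕ)) := by
    intro x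
    funext i
    unfold ft
    rw [eval_eq_sum_range' (hGdeg x), Matrix.mulVec, dotProduct, Finset.sum_range]
    refine Finset.sum_congr rfl (fun k _ => ?_)
    rw [hΛ, Matrix.vandermonde_apply, mul_comm]
  -- open image
  have hstrict : HasStrictFDerivAt ft (fderiv ℂ ft pt) pt :=
    ft_contDiff.contDiffAt.hasStrictFDerivAt (by norm_num)
  have hmap := hstrict.map_nhds_eq_of_surj range_top
  have hrange : Set.range ft ∈ nhds (ft pt) := by
    rw [← hmap]
    exact Filter.mem_map.2 (Filter.univ_mem' (fun x => ⟨x, rfl⟩))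
  obtain ⟨O, hOsub, hOopen, hOmem⟩ := mem_nhds_iff.1 hrange
  apply eq_zero_of_open P {v | Λ.mulVec v ∈ O}
  · have hcont : Continuous (fun v : Fin 65 → ℂ => Λ.mulVec v) :=
      (Matrix.mulVecLin Λ).continuous_of_finiteDimensional
    exact hOopen.preimage hcont
  · refine ⟨fun i : Fin 65 => (GP pt).coeff (i : ℕ), ?_⟩
    show Λ.mulVec _ ∈ O
    rw [← hft]
    exact hOmem
  · intro v hv
    obtain ⟨x, hx⟩ := hOsub hv
    rw [hft] at hx
    have hinjM : Function.Injective Λ.mulVec := Matrix.mulVec_injective_of_isUnit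
      ((Matrix.isUnit_iff_isUnit_det Λ).2 hdet)
    rw [← hinjM hx]
    exact h1 x

end Pool.Agent.H486N
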