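import Pool.Agent.H486_Neuro.Neg

set_option autoImplicit false

open Polynomial Finset

namespace Pool.Agent.H486N

/-- from span membership to layer weights -/
theorem exists_weights (n : ℕ) (g : ℕ → Polynomial ℂ) (T : ℕ → Polynomial ℂ)
    (h : ∀ a, T a ∈ Submodule.span ℂ (Set.range fun b : Fin n => g b ^ 2)) :
    ∃ w : ℕ → ℕ → ℂ, lay n w g = T := by
  have h1 : ∀ a, ∃ c : Fin n → ℂ, ∑ b, c b • (g b ^ 2) = T a := fun a =>
    (Submodule.mem_span_range_iff_exists_fun ℂ).1 (h a)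
  choose c hc using h1
  refine ⟨fun a b => if hb : b < n then c a ⟨b, hb⟩ else 0, ?_⟩
  funext a
  unfold lay
  rw [← hc a, Finset.sum_range]
  refine Finset.sum_congr rfl (fun b _ => ?_)
  show C (if hb : (b : ℕ) < n then c a ⟨b, hb⟩ else 0) * g b ^ 2 = _
  rw [dif_pos b.2, smul_eq_C_mul]

/-- the standard list of polynomials of degree at most `D`: monomials and sums of neighbours -/
noncomputable def std (D : ℕ) (a : ℕ) : Polynomial ℂ :=
  if a ≤ D then X ^ a else if a ≤ 2 * D then X ^ (a - D - 1) + X ^ (a - D) else 0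

theorem std_low {D i : ℕ} (h : i ≤ D) : std D i = X ^ i := by
  rw [std, if_pos h]

theorem std_high {D i : ℕ} (h : i < D) : std D (D + 1 + i) = X ^ i + X ^ (i + 1) := by
  rw [std, if_neg (by omega), if_pos (by omega)]
  congr 2 <;> omega

theorem std_deg (D a : ℕ) : (std D a).natDegree ≤ D := by
  unfold std
  split_ifs with h1 h2
  · exact (natDegree_X_pow_le _).trans h1
  · refine (natDegree_add_le _ _).trans (max_le ?_ ?_)
    · exact (natDegree_X_pow_le _).trans (by omega)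
    · exact (natDegree_X_pow_le _).trans (by omega)
  · simp

theorem std_span (D : ℕ) (p : Polynomial ℂ) (hp : p.natDegree ≤ 2 * D) :
    p ∈ Submodule.span ℂ (Set.range fun b : Fin (2 * D + 1) => std D b ^ 2) := by
  set V := Submodule.span ℂ (Set.range fun b : Fin (2 * D + 1) => std D b ^ 2) with hV
  have hmem : ∀ b, b < 2 * D + 1 → std D b ^ 2 ∈ V := fun b hb =>
    Submodule.subset_span ⟨⟨b, hb⟩, rfl⟩
  have heven : ∀ i, i ≤ D → (X : Polynomial ℂ) ^ (2 * i) ∈ V := by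
    intro i hi
    have := hmem i (by omega)
    rw [std_low hi] at this
    rwa [← pow_mul, mul_comm] at this
  have hodd : ∀ i, i < D → (X : Polynomial ℂ) ^ (2 * i + 1) ∈ V := by
    intro i hi
    have h1 := hmem (D + 1 + i) (by omega)
    rw [std_high hi] at h1
    have h2 := heven i (by omega)
    have h3 := heven (i + 1) (by omega)
    have h4 : (X : Polynomial ℂ) ^ (2 * i + 1) = (1 / 2 : ℂ) • ((X ^ i + X ^ (i + 1)) ^ 2 -
        X ^ (2 * i) - X ^ (2 * (i + 1))) := by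
      have h5 : (X ^ i + X ^ (i + 1) : Polynomial ℂ) ^ 2 - X ^ (2 * i) - X ^ (2 * (i + 1)) =
          2 * X ^ (2 * i + 1) := by ring
      rw [h5, smul_eq_C_mul]
      have h6 : (2 : Polynomial ℂ) = C 2 := (map_ofNat C 2).symm
      rw [h6, ← mul_assoc, ← C_mul]
      norm_num
    rw [h4]
    exact V.smul_mem _ (V.sub_mem (V.sub_mem h1 h2) h3)
  have hall : ∀ k, k ≤ 2 * D → (X : Polynomial ℂ) ^ k ∈ V := by
    intro k hk
    rcases Nat.even_or_odd' k with ⟨i, rfl | rfl⟩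
    · exact heven i (by omega)
    · exact hodd i (by omega)
  rw [p.as_sum_range_C_mul_X_pow' (show p.natDegree < 2 * D + 1 by omega)]
  refine V.sum_mem (fun k hk => ?_)
  rw [← smul_eq_C_mul]
  exact V.smul_mem _ (hall k (by have := Finset.mem_range.1 hk; omega))

/-- the lower four layers realise any four octics -/
theorem lower (Y : ℕ → Polynomial ℂ) (hY : ∀ j, (Y j).natDegree ≤ 8) :
    ∃ W0 W1 W2 W3 : ℕ → ℕ → ℂ, lay 9 W3 (lay 5 W2 (lay 3 W1 (lay0 W0))) = Y := by
  -- layer 1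
  set W0 : ℕ → ℕ → ℂ := fun a b => (std 1 a).coeff b with hW0
  have h1 : lay0 W0 = std 1 := by
    funext a
    unfold lay0
    simp only [hW0]
    have h2 := (std 1 a).as_sum_range_C_mul_X_pow' (show (std 1 a).natDegree < 2 by
      have := std_deg 1 a; omega)
    conv_rhs => rw [h2]
    rw [Finset.sum_range_succ, Finset.sum_range_one, pow_zero, mul_one, pow_one]
  obtain ⟨W1, hW1⟩ := exists_weights 3 (std 1) (std 2) (fun a => std_span 1 _ (std_deg 2 a))
  obtain ⟨W2, hW2⟩ := exists_weights 5 (std 2) (std 4) (fun a => std_span 2 _ (std_deg 4 a))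
  obtain ⟨W3, hW3⟩ := exists_weights 9 (std 4) Y (fun a => std_span 4 _ (hY a))
  exact ⟨W0, W1, W2, W3, by rw [h1, hW1, hW2, hW3]⟩

/-- products of pairs -/
noncomputable def pr (z : ℕ → Polynomial ℂ) (c : ℕ) : Polynomial ℂ := z (c / 4) * z (c % 4)

theorem mul_mem_of_sq (V : Submodule ℂ (Polynomial ℂ)) (A B : Polynomial ℂ)
    (h1 : (A + B) ^ 2 ∈ V) (h2 : (A + A) ^ 2 ∈ V) (h3 : (B + B) ^ 2 ∈ V) : A * B ∈ V := by
  have h4 : A * B = (1 / 2 : ℂ) • ((A + B) ^ 2 - (1 / 4 : ℂ) • (A + A) ^ 2 -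
      (1 / 4 : ℂ) • (B + B) ^ 2) := by
    simp only [smul_eq_C_mul]
    have h5 : (C (1 / 4 : ℂ)) * (4 : Polynomial ℂ) = 1 := by
      have : (4 : Polynomial ℂ) = C 4 := (map_ofNat C 4).symm
      rw [this, ← C_mul]; norm_num
    have h6 : (C (1 / 2 : ℂ)) * (2 : Polynomial ℂ) = 1 := by
      have : (2 : Polynomial ℂ) = C 2 := (map_ofNat C 2).symm
      rw [this, ← C_mul]; norm_num
    linear_combination (-(A * B)) * h6 + C (1 / 2 : ℂ) * (A ^ 2 + B ^ 2) * h5
  rw [h4]
  exact V.smul_mem _ (V.sub_mem (V.sub_mem h1 (V.smul_mem _ h2)) (V.smul_mem _ h3))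

theorem alpha_split : ∀ α : A4, ∃ f : Fin 4 → Fin 4, ∀ j, (α.1 j : ℕ) =
    (Finset.univ.filter (fun k => f k = j)).card := by decide +kernel

/-- the upper three layers realise any quartic form -/
theorem upper_rep (Y : ℕ → Polynomial ℂ) (q : A4 → ℂ) :
    ∃ W4 W5 W6 : ℕ → ℕ → ℂ, lay 256 W6 (lay 16 W5 (lay 4 W4 Y)) 0 =
      qf q (fun j : Fin 4 => (Y j) ^ 2) := by
  set z : ℕ → Polynomial ℂ := fun j => Y j ^ 2 with hz
  -- layer 5
  set W4 : ℕ → ℕ → ℂ := fun c j => (if j = c / 4 then 1 else 0) + (if j = c % 4 then 1 else 0) with hW4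
  have h5 : ∀ c, c < 16 → lay 4 W4 Y c = z (c / 4) + z (c % 4) := by
    intro c hc
    unfold lay
    simp only [hW4, hz]
    have hc1 : c / 4 < 4 := by omega
    have hc2 : c % 4 < 4 := by omega
    simp only [map_add, add_mul, Finset.sum_add_distrib]
    congr 1
    · rw [Finset.sum_eq_single_of_mem (c / 4) (Finset.mem_range.2 hc1)]
      · simp
      · intro b _ hb; simp [hb]
    · rw [Finset.sum_eq_single_of_mem (c % 4) (Finset.mem_range.2 hc2)]
      · simp
      · intro b _ hb; simp [hb]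
  -- layer 6
  have h6 : ∀ c, c < 16 → pr z c ∈ Submodule.span ℂ (Set.range fun b : Fin 16 => lay 4 W4 Y b ^ 2) := by
    intro c hc
    set V := Submodule.span ℂ (Set.range fun b : Fin 16 => lay 4 W4 Y b ^ 2) with hV
    have hmem : ∀ b, b < 16 → (z (b / 4) + z (b % 4)) ^ 2 ∈ V := by
      intro b hb
      rw [← h5 b hb]
      exact Submodule.subset_span ⟨⟨b, hb⟩, rfl⟩
    apply mul_mem_of_sq
    · exact hmem c hc
    · have := hmem (4 * (c / 4) + c / 4) (by omega)
      rwa [show (4 * (c / 4) + c / 4) / 4 = c / 4 by omega,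
        show (4 * (c / 4) + c / 4) % 4 = c / 4 by omega] at this
    · have := hmem (4 * (c % 4) + c % 4) (by omega)
      rwa [show (4 * (c % 4) + c % 4) / 4 = c % 4 by omega,
        show (4 * (c % 4) + c % 4) % 4 = c % 4 by omega] at this
  obtain ⟨W5, hW5⟩ := exists_weights 16 (lay 4 W4 Y)
    (fun b => pr z ((b / 16) % 16) + pr z (b % 16)) (fun a => by
      refine Submodule.add_mem _ (h6 _ ?_) (h6 _ ?_)
      · omega
      · omega)
  -- layer 7
  have h7 : ∀ c d, c < 16 → d < 16 → pr z c * pr z d ∈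
      Submodule.span ℂ (Set.range fun b : Fin 256 => (lay 16 W5 (lay 4 W4 Y) b) ^ 2) := by
    intro c d hc hd
    set V := Submodule.span ℂ (Set.range fun b : Fin 256 => (lay 16 W5 (lay 4 W4 Y) b) ^ 2) with hV
    have hmem : ∀ c d, c < 16 → d < 16 → (pr z c + pr z d) ^ 2 ∈ V := by
      intro c d hc hd
      have h8 : lay 16 W5 (lay 4 W4 Y) (16 * c + d) = pr z c + pr z d := by
        rw [hW5]
        show pr z (((16 * c + d) / 16) % 16) + pr z ((16 * c + d) % 16) = _
        rw [show ((16 * c + d) / 16) % 16 = c by omega, show (16 * c + d) % 16 = d by omega]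
      rw [← h8]
      exact Submodule.subset_span ⟨⟨16 * c + d, by omega⟩, rfl⟩
    exact mul_mem_of_sq _ _ _ (hmem c d hc hd) (hmem c c hc hc) (hmem d d hd hd)
  have h9 : qf q (fun j : Fin 4 => (Y j) ^ 2) ∈
      Submodule.span ℂ (Set.range fun b : Fin 256 => (lay 16 W5 (lay 4 W4 Y) b) ^ 2) := by
    unfold qf
    refine Submodule.sum_mem _ (fun α _ => ?_)
    rw [← smul_eq_C_mul]
    refine Submodule.smul_mem _ _ ?_
    obtain ⟨f, hf⟩ := alpha_split α
    have h10 : ∏ j : Fin 4, ((Y j) ^ 2) ^ (α.1 j : ℕ) =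
        pr z (4 * (f 0 : ℕ) + f 1) * pr z (4 * (f 2 : ℕ) + f 3) := by
      have h11 : ∏ j : Fin 4, (z j) ^ (α.1 j : ℕ) = ∏ k : Fin 4, z (f k) := by
        rw [← Finset.prod_fiberwise' Finset.univ f (fun j => z (j : ℕ))]
        refine Finset.prod_congr rfl (fun j _ => ?_)
        rw [Finset.prod_const, hf j]
      show ∏ j : Fin 4, (z j) ^ (α.1 j : ℕ) = _
      rw [h11, Fin.prod_univ_four]
      unfold pr
      have e0 := (f 0).2
      have e1 := (f 1).2
      have e2 := (f 2).2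
      have e3 := (f 3).2
      rw [show (4 * (f 0 : ℕ) + f 1) / 4 = f 0 by omega, show (4 * (f 0 : ℕ) + f 1) % 4 = f 1 by omega,
        show (4 * (f 2 : ℕ) + f 3) / 4 = f 2 by omega, show (4 * (f 2 : ℕ) + f 3) % 4 = f 3 by omega]
      ring
    rw [h10]
    have e0 := (f 0).2
    have e1 := (f 1).2
    have e2 := (f 2).2
    have e3 := (f 3).2
    exact h7 _ _ (by omega) (by omega)
  obtain ⟨W6, hW6⟩ := exists_weights 256 (lay 16 W5 (lay 4 W4 Y))
    (fun a => if a = 0 then qf q (fun j : Fin 4 => (Y j) ^ 2) else 0) (fun a => by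
      by_cases h : a = 0
      · rw [if_pos h]; exact h9
      · rw [if_neg h]; exact Submodule.zero_mem _)
  exact ⟨W4, W5, W6, by rw [hW6]; rfl⟩

/-- the large width vector -/
def e0 : Fin 8 → ℕ := ![2, 3, 5, 9, 4, 16, 256, 1]

theorem rep (Y : ℕ → Polynomial ℂ) (hY : ∀ j, (Y j).natDegree ≤ 8) (q : A4 → ℂ) :
    ∃ W : Fin 7 → ℕ → ℕ → ℂ, U e0 W 0 = qf q (fun j : Fin 4 => (Y j) ^ 2) := by
  obtain ⟨W0, W1, W2, W3, h1⟩ := lower Y hY
  obtain ⟨W4, W5, W6, h2⟩ := upper_rep Y q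
  refine ⟨![W0, W1, W2, W3, W4, W5, W6], ?_⟩
  have h3 : U e0 ![W0, W1, W2, W3, W4, W5, W6] 0 =
    lay 256 W6 (lay 16 W5 (lay 4 W4 (lay 9 W3 (lay 5 W2 (lay 3 W1 (lay0 W0)))))) 0 := rfl
  rw [h3, h1, h2]

end Pool.Agent.H486N
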